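import Pool.Agent.Lib.MP_144d21_co.XU.H57.Coldc
import Pool.Agent.Lib.MP_144d21_co.XU.H57.Glue
import Pool.Agent.Lib.MP_144d21_co.XU.H57.Necnt
import Pool.Agent.Lib.MP_144d21_co.XU.H30.Chi
import Pool.Agent.Lib.MP_144d21_co.XU.H21.Chidc
import Pool.Agent.Lib.MP_144d21_co.XU.H32.Chigl
import Pool.Agent.Lib.MP_144d21_co.XU.H93.Betdc
import Pool.Agent.Lib.MP_144d21_co.XU.H38.Betcut

/-!
# MP_144d21_co, X2: the invariant `bet` at a 3-cut (helper16)

`tri G x y z` = `G` with the triangle `xyz` added.
* `bet_tri`: `bet G S` from the values of `tri G x y z` and of its contractions;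
* `bet_cut3`: the 3-cut formula `β(X) = A A' - ∑ b_e b'_e` over the missing pairs.
-/

set_option autoImplicit false
set_option linter.unusedSectionVars false
set_option linter.unusedVariables false
set_option linter.unusedSimpArgs false

namespace Pool.Agent.Xu.X2

open Finset Polynomial

theorem iColdc : ColdcS := H57.coldc
theorem iGlue : GlueS := H57.glue
theorem iNecnt : NecntS := H57.necnt
theorem iChi : ChiS := H30.chi iColdc iNecnt
theorem iChidc : ChidcS := H21.chidc iColdc iChi
theorem iChigl : ChiglS := H32.chigl iGlue iChi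
theorem iBetdc : BetdcS := H93.betdc iChidc
theorem iBetcut : BetcutS := H38.betcut iChi iChidc iChigl

variable {V : Type} [Fintype V] [DecidableEq V]

theorem bet_congr {G G' : SimpleGraph V} {S : Finset V}
    (h : ∀ u ∈ S, ∀ v ∈ S, (G.Adj u v ↔ G'.Adj u v)) : bet G S = bet G' S := by
  unfold bet
  rw [chi_congr h]

/-- `G` with the triangle `xyz` -/
def tri (G : SimpleGraph V) (x y z : V) : SimpleGraph V := add (add (add G x y) y z) x z

theorem add_adj {G : SimpleGraph V} {v w a b : V} : (add G v w).Adj a b ↔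
    G.Adj a b ∨ (a ≠ b ∧ ((a = v ∧ b = w) ∨ (a = w ∧ b = v))) := Iff.rfl

theorem con_adj {G : SimpleGraph V} {v w a b : V} : (con G v w).Adj a b ↔
    a ≠ b ∧ (G.Adj a b ∨ (a = w ∧ G.Adj v b) ∨ (b = w ∧ G.Adj v a)) := Iff.rfl

theorem del_adj {G : SimpleGraph V} {v w a b : V} : (del G v w).Adj a b ↔
    G.Adj a b ∧ ¬ (a = v ∧ b = w) ∧ ¬ (a = w ∧ b = v) := Iff.rfl

theorem tri_adj {G : SimpleGraph V} {x y z a b : V} : (tri G x y z).Adj a b ↔
    G.Adj a b ∨ (a ≠ b ∧ (a = x ∨ a = y ∨ a = z) ∧ (b = x ∨ b = y ∨ b = z)) := by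
  unfold tri
  rw [add_adj, add_adj, add_adj]
  constructor
  · rintro (((h | ⟨h, h1⟩) | ⟨h, h1⟩) | ⟨h, h1⟩)
    · exact Or.inl h
    · right; refine ⟨h, ?_, ?_⟩ <;> tauto
    · right; refine ⟨h, ?_, ?_⟩ <;> tauto
    · right; refine ⟨h, ?_, ?_⟩ <;> tauto
  · rintro (h | ⟨h, h1, h2⟩)
    · tauto
    · rcases h1 with rfl | rfl | rfl <;> rcases h2 with rfl | rfl | rfl <;> tauto

/-- one step: add a pair -/
theorem bet_add (G : SimpleGraph V) (S : Finset V) (v w : V) (hv : v ∈ S) (hw : w ∈ S)
    (hvw : v ≠ w) (h : ¬ G.Adj v w) :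
    bet G S = bet (add G v w) S - bet (con (add G v w) v w) (S.erase v) := by
  have h1 := iBetdc V (add G v w) S v w hv hw (Or.inr ⟨hvw, Or.inl ⟨rfl, rfl⟩⟩)
  have h2 : bet (del (add G v w) v w) S = bet G S := by
    apply bet_congr
    intro a _ b _
    rw [del_adj, add_adj]
    constructor
    · rintro ⟨h4 | ⟨_, h4⟩, h2, h3⟩
      · exact h4
      · tauto
    · intro h4
      refine ⟨Or.inl h4, ?_, ?_⟩
      · rintro ⟨rfl, rfl⟩; exact h h4
      · rintro ⟨rfl, rfl⟩; exact h h4.symm
  rw [h1, h2]; ring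

theorem bet_add_of_adj (G : SimpleGraph V) (S : Finset V) (v w : V) (h : G.Adj v w) :
    bet G S = bet (add G v w) S := by
  apply bet_congr
  intro a _ b _
  rw [add_adj]
  constructor
  · exact fun h => Or.inl h
  · rintro (h1 | ⟨_, ⟨rfl, rfl⟩ | ⟨rfl, rfl⟩⟩)
    · exact h1
    · exact h
    · exact h.symm

open Classical in
/-- `bet G S` from the graph with the triangle and its contractions -/
theorem bet_tri (G : SimpleGraph V) (S : Finset V) (x y z : V) (hx : x ∈ S) (hy : y ∈ S)
    (hz : z ∈ S) (hxy : x ≠ y) (hyz : y ≠ z) (hxz : x ≠ z) :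
    bet G S = bet (tri G x y z) S
      - (if G.Adj x y then 0 else bet (con (tri G x y z) x y) (S.erase x))
      - (if G.Adj y z then 0 else bet (con (tri G x y z) y z) (S.erase y))
      - (if G.Adj x z then 0 else bet (con (tri G x y z) x z) (S.erase x))
      + (if G.Adj x y ∨ G.Adj y z ∨ G.Adj x z then 0 else
          bet (con (con (tri G x y z) x y) y z) ((S.erase x).erase y)) := by
  -- step 3
  have s3 : bet (add (add G x y) y z) S = bet (tri G x y z) S
      - (if G.Adj x z then 0 else bet (con (tri G x y z) x z) (S.erase x)) := by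
    have e : (add (add G x y) y z).Adj x z ↔ G.Adj x z := by
      rw [add_adj, add_adj]
      constructor
      · rintro ((h | ⟨_, h⟩) | ⟨_, h⟩)
        · exact h
        · rcases h with h | h
          · exact absurd h.2.symm hyz
          · exact absurd h.1 hxy
        · rcases h with h | h
          · exact absurd h.1 hxy
          · exact absurd h.1 hxz
      · exact fun h => Or.inl (Or.inl h)
    by_cases h : G.Adj x z
    · rw [if_pos h, sub_zero, bet_add_of_adj _ S x z (e.2 h)]; rfl
    · rw [if_neg h, bet_add _ S x z hx hz hxz (fun h1 => h (e.1 h1))]; rfl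
  -- step 2
  have s2 : bet (add G x y) S = bet (add (add G x y) y z) S
      - (if G.Adj y z then 0 else bet (con (tri G x y z) y z) (S.erase y)) := by
    have e : (add G x y).Adj y z ↔ G.Adj y z := by
      rw [add_adj]
      constructor
      · rintro (h | ⟨_, h | h⟩)
        · exact h
        · exact absurd h.1.symm hxy
        · exact absurd h.2.symm hxz
      · exact fun h => Or.inl h
    by_cases h : G.Adj y z
    · rw [if_pos h, sub_zero, bet_add_of_adj _ S y z (e.2 h)]
    · rw [if_neg h, bet_add _ S y z hy hz hyz (fun h1 => h (e.1 h1))]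
      congr 1
      apply bet_congr
      intro a ha b hb
      rw [mem_erase] at ha hb
      rw [con_adj, con_adj]
      simp only [add_adj, tri_adj]
      have ha1 := ha.1
      have hb1 := hb.1
      have h1 := hxy
      have h2 := hyz
      have h3 := hxz
      constructor
      · rintro ⟨hab, h⟩
        refine ⟨hab, ?_⟩
        rcases h with ((h | ⟨_, h⟩) | ⟨_, h⟩) | ⟨h0, (h | ⟨_, h⟩) | ⟨_, h⟩⟩ | ⟨h0, (h | ⟨_, h⟩) | ⟨_, h⟩⟩
        · exact Or.inl (Or.inl h)
        · tauto
        · tauto
        · exact Or.inr (Or.inl ⟨h0, Or.inl h⟩)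
        · tauto
        · tauto
        · exact Or.inr (Or.inr ⟨h0, Or.inl h⟩)
        · tauto
        · tauto
      · rintro ⟨hab, h⟩
        refine ⟨hab, ?_⟩
        rcases h with (h | ⟨_, h⟩) | ⟨h0, h | ⟨h4, h⟩⟩ | ⟨h0, h | ⟨h4, h⟩⟩
        · exact Or.inl (Or.inl (Or.inl h))
        · rcases h.1 with rfl | rfl | rfl
          · rcases h.2 with rfl | rfl | rfl
            · exact absurd rfl hab
            · exact absurd rfl hb1
            · right; right; exact ⟨rfl, Or.inl (Or.inr ⟨hxy.symm, Or.inr ⟨trivial, rfl⟩⟩)⟩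
          · exact absurd rfl ha1
          · rcases h.2 with rfl | rfl | rfl
            · right; left; exact ⟨rfl, Or.inl (Or.inr ⟨hxy.symm, Or.inr ⟨trivial, rfl⟩⟩)⟩
            · exact absurd rfl hb1
            · exact absurd rfl hab
        · exact Or.inr (Or.inl ⟨h0, Or.inl (Or.inl h)⟩)
        · rcases h.2 with rfl | rfl | rfl
          · right; left; exact ⟨h0, Or.inl (Or.inr ⟨hxy.symm, Or.inr ⟨trivial, rfl⟩⟩)⟩
          · exact absurd rfl hb1
          · exact absurd h0 hab
        · exact Or.inr (Or.inr ⟨h0, Or.inl (Or.inl h)⟩)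
        · rcases h.2 with rfl | rfl | rfl
          · right; right; exact ⟨h0, Or.inl (Or.inr ⟨hxy.symm, Or.inr ⟨trivial, rfl⟩⟩)⟩
          · exact absurd rfl ha1
          · exact absurd h0.symm hab
  -- step 1
  have s1 : bet G S = bet (add G x y) S
      - (if G.Adj x y then 0 else bet (con (tri G x y z) x y) (S.erase x))
      + (if G.Adj x y ∨ G.Adj y z ∨ G.Adj x z then 0 else
          bet (con (con (tri G x y z) x y) y z) ((S.erase x).erase y)) := by
    by_cases h : G.Adj x y
    · rw [if_pos h, if_pos (Or.inl h), sub_zero, add_zero]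
      exact bet_add_of_adj _ S x y h
    · rw [if_neg h, bet_add _ S x y hx hy hxy h]
      by_cases h' : G.Adj y z ∨ G.Adj x z
      · rw [if_pos (Or.inr h'), add_zero]
        congr 1
        apply bet_congr
        intro a ha b hb
        rw [mem_erase] at ha hb
        rw [con_adj, con_adj]
        simp only [add_adj, tri_adj]
        constructor
        · rintro ⟨hab, h⟩
          refine ⟨hab, ?_⟩
          rcases h with (h | ⟨_, h⟩) | ⟨h0, h | ⟨_, h⟩⟩ | ⟨h0, h | ⟨_, h⟩⟩
          · exact Or.inl (Or.inl h)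
          · tauto
          · exact Or.inr (Or.inl ⟨h0, Or.inl h⟩)
          · tauto
          · exact Or.inr (Or.inr ⟨h0, Or.inl h⟩)
          · tauto
        · rintro ⟨hab, h⟩
          refine ⟨hab, ?_⟩
          have ha1 := ha.1
          have hb1 := hb.1
          have key : ∀ u w : V, u = y → w = z →
              ((G.Adj u w ∨ u ≠ w ∧ (u = x ∧ w = y ∨ u = y ∧ w = x)) ∨
              (u = y ∧ (G.Adj x w ∨ x ≠ w ∧ (True ∧ w = y ∨ x = y ∧ w = x)))) := by
            rintro u w rfl rfl
            rcases h' with h' | h'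
            · exact Or.inl (Or.inl h')
            · exact Or.inr ⟨rfl, Or.inl h'⟩
          have key2 : ∀ u w : V, u ≠ w → u ≠ x → w ≠ x → (u = x ∨ u = y ∨ u = z) →
              (w = x ∨ w = y ∨ w = z) → (u = y ∧ w = z) ∨ (u = z ∧ w = y) := by
            intro u w h1 h2 h3 h4 h5
            rcases h4 with h4 | h4 | h4
            · exact absurd h4 h2
            · rcases h5 with h5 | h5 | h5
              · exact absurd h5 h3
              · exact absurd (h4.trans h5.symm) h1
              · exact Or.inl ⟨h4, h5⟩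
            · rcases h5 with h5 | h5 | h5
              · exact absurd h5 h3
              · exact Or.inr ⟨h4, h5⟩
              · exact absurd (h4.trans h5.symm) h1
          have fin : ((a = y ∧ b = z) ∨ (a = z ∧ b = y)) →
              (G.Adj a b ∨ a ≠ b ∧ (a = x ∧ b = y ∨ a = y ∧ b = x)) ∨
              (a = y ∧ (G.Adj x b ∨ x ≠ b ∧ (True ∧ b = y ∨ x = y ∧ b = x))) ∨
              (b = y ∧ (G.Adj x a ∨ x ≠ a ∧ (True ∧ a = y ∨ x = y ∧ a = x))) := by
            rintro (⟨rfl, rfl⟩ | ⟨rfl, rfl⟩)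
            · rcases h' with h' | h'
              · exact Or.inl (Or.inl h')
              · exact Or.inr (Or.inl ⟨rfl, Or.inl h'⟩)
            · rcases h' with h' | h'
              · exact Or.inl (Or.inl h'.symm)
              · exact Or.inr (Or.inr ⟨rfl, Or.inl h'⟩)
          rcases h with (h | ⟨_, h⟩) | ⟨h0, h | ⟨h4, h⟩⟩ | ⟨h0, h | ⟨h4, h⟩⟩
          · exact Or.inl (Or.inl h)
          · exact fin (key2 a b hab ha1 hb1 h.1 h.2)
          · exact Or.inr (Or.inl ⟨h0, Or.inl h⟩)
          · rcases h.2 with h5 | h5 | h5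
            · exact absurd h5 hb1
            · exact absurd (h0.trans h5.symm) hab
            · exact fin (Or.inl ⟨h0, h5⟩)
          · exact Or.inr (Or.inr ⟨h0, Or.inl h⟩)
          · rcases h.2 with h5 | h5 | h5
            · exact absurd h5 ha1
            · exact absurd (h0.trans h5.symm) hab.symm
            · exact fin (Or.inr ⟨h5, h0⟩)
      · have h'' : ¬ (G.Adj x y ∨ G.Adj y z ∨ G.Adj x z) := by tauto
        rw [if_neg h'']
        have hnyz : ¬ G.Adj y z := fun h1 => h' (Or.inl h1)
        have hnxz : ¬ G.Adj x z := fun h1 => h' (Or.inr h1)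
        have e1 := iBetdc V (con (tri G x y z) x y) (S.erase x) y z
          (mem_erase.2 ⟨hxy.symm, hy⟩) (mem_erase.2 ⟨hxz.symm, hz⟩) (by
            rw [con_adj, tri_adj]; tauto)
        have e2 : bet (del (con (tri G x y z) x y) y z) (S.erase x) =
            bet (con (add G x y) x y) (S.erase x) := by
          apply bet_congr
          intro a ha b hb
          rw [mem_erase] at ha hb
          rw [del_adj, con_adj, con_adj]
          simp only [add_adj, tri_adj]
          have ha1 := ha.1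
          have hb1 := hb.1
          constructor
          · rintro ⟨⟨hab, h5⟩, h6, h7⟩
            refine ⟨hab, ?_⟩
            rcases h5 with (h5 | ⟨_, h5⟩) | ⟨h0, h5 | ⟨h4, h5⟩⟩ | ⟨h0, h5 | ⟨h4, h5⟩⟩
            · exact Or.inl (Or.inl h5)
            · exfalso
              rcases h5.1 with h8 | h8 | h8
              · exact ha1 h8
              · rcases h5.2 with h9 | h9 | h9
                · exact hb1 h9
                · exact hab (h8.trans h9.symm)
                · exact h6 ⟨h8, h9⟩
              · rcases h5.2 with h9 | h9 | h9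
                · exact hb1 h9
                · exact h7 ⟨h8, h9⟩
                · exact hab (h8.trans h9.symm)
            · exact Or.inr (Or.inl ⟨h0, Or.inl h5⟩)
            · exfalso
              rcases h5.2 with h9 | h9 | h9
              · exact hb1 h9
              · exact hab (h0.trans h9.symm)
              · exact h6 ⟨h0, h9⟩
            · exact Or.inr (Or.inr ⟨h0, Or.inl h5⟩)
            · exfalso
              rcases h5.2 with h9 | h9 | h9
              · exact ha1 h9
              · exact hab.symm (h0.trans h9.symm)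
              · exact h7 ⟨h9, h0⟩
          · rintro ⟨hab, h5⟩
            have h10 : ∀ u : V, G.Adj x u → u ≠ y ∧ u ≠ z := fun u hu =>
              ⟨fun e => h (e ▸ hu), fun e => hnxz (e ▸ hu)⟩
            have h11 : ∀ u : V, G.Adj y u → u ≠ z := fun u hu => fun e => hnyz (e ▸ hu)
            rcases h5 with (h5 | ⟨_, h5⟩) | ⟨h0, h5 | ⟨h4, h5⟩⟩ | ⟨h0, h5 | ⟨h4, h5⟩⟩
            · refine ⟨⟨hab, Or.inl (Or.inl h5)⟩, ?_, ?_⟩
              · rintro ⟨rfl, rfl⟩; exact hnyz h5
              · rintro ⟨rfl, rfl⟩; exact hnyz h5.symm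
            · tauto
            · refine ⟨⟨hab, Or.inr (Or.inl ⟨h0, Or.inl h5⟩)⟩, ?_, ?_⟩
              · rintro ⟨h12, h13⟩; exact (h10 b h5).2 h13
              · rintro ⟨h12, h13⟩; exact (h10 b h5).1 h13
            · exfalso
              rcases h5 with h5 | h5
              · exact hab (h0.trans h5.2.symm)
              · exact hb1 h5.2
            · refine ⟨⟨hab, Or.inr (Or.inr ⟨h0, Or.inl h5⟩)⟩, ?_, ?_⟩
              · rintro ⟨h12, h13⟩; exact (h10 a h5).1 h12
              · rintro ⟨h12, h13⟩; exact (h10 a h5).2 h12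
            · exfalso
              rcases h5 with h5 | h5
              · exact hab.symm (h0.trans h5.2.symm)
              · exact ha1 h5.2
        rw [e2] at e1
        rw [e1]; ring
  rw [s1, s2, s3]
  ring

/-! ### Clique cuts -/

theorem chi_one_zero (G : SimpleGraph V) (S : Finset V) (a b : V) (ha : a ∈ S) (hb : b ∈ S)
    (hab : G.Adj a b) : (chi G S).eval 1 = 0 := H38.chi_eval_one iChi G S a b ha hb hab

/-- a cut vertex -/
theorem bet_cut1 (G : SimpleGraph V) (S1 S2 : Finset V) (x : V) (hs : Sep G S1 S2)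
    (hI : S1 ∩ S2 = {x}) (h1 : ∃ a ∈ S1, ∃ b ∈ S1, G.Adj a b)
    (h2 : ∃ a ∈ S2, ∃ b ∈ S2, G.Adj a b) : bet G (S1 ∪ S2) = 0 := by
  obtain ⟨a1, ha1, b1, hb1, hab1⟩ := h1
  obtain ⟨a2, ha2, b2, hb2, hab2⟩ := h2
  have e := (iChigl V G S1 S2 hs).2.1 x hI
  have q0 := chi_one_zero G (S1 ∪ S2) a1 b1 (mem_union_left _ ha1) (mem_union_left _ hb1) hab1
  have q1 := chi_one_zero G S1 a1 b1 ha1 hb1 hab1
  have q2 := chi_one_zero G S2 a2 b2 ha2 hb2 hab2
  have e8 := congrArg (fun P : ℤ[X] => (derivative P).eval 1) e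
  simp only [eval_mul, eval_X, derivative_mul, eval_add, derivative_X, q1, q2, q0,
    one_mul, mul_zero, zero_mul, add_zero, zero_add] at e8
  unfold bet
  rw [e8, mul_zero]

/-- a cut edge pair which is an edge -/
theorem bet_cut2 (G : SimpleGraph V) (S1 S2 : Finset V) (x y : V) (hs : Sep G S1 S2)
    (hI : S1 ∩ S2 = {x, y}) (hxy : G.Adj x y) : bet G (S1 ∪ S2) = bet G S1 * bet G S2 := by
  have hx : x ∈ S1 ∩ S2 := by rw [hI]; simp
  have hy : y ∈ S1 ∩ S2 := by rw [hI]; simp
  rw [mem_inter] at hx hy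
  have f1 := (iChigl V G S1 S2 hs).2.2 x y hxy hI
  have p0 := chi_one_zero G (S1 ∪ S2) x y (mem_union_left _ hx.1)
    (mem_union_left _ hy.1) hxy
  have p1 := chi_one_zero G S1 x y hx.1 hy.1 hxy
  have p2 := chi_one_zero G S2 x y hx.2 hy.2 hxy
  have f2 := congrArg (fun P : ℤ[X] => (derivative (derivative P)).eval 1) f1
  simp only [derivative_mul, derivative_add, derivative_X, derivative_sub, derivative_one,
    derivative_C, eval_mul, eval_add, eval_sub, eval_X, eval_one, eval_C, eval_zero, p0, p1, p2,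
    derivative_zero, sub_zero, mul_zero, zero_mul, add_zero, zero_add, sub_self, mul_one,
    one_mul] at f2
  have hcard : (S1 ∪ S2).card + 2 = S1.card + S2.card := by
    rw [← card_union_add_card_inter, hI, card_pair hxy.ne]
  unfold bet
  have hsgn : ((-1 : ℤ)) ^ (S1 ∪ S2).card = (-1) ^ S1.card * (-1) ^ S2.card := by
    rw [← pow_add, ← hcard, pow_add]; norm_num
  rw [hsgn]
  have f3 : (derivative (chi G (S1 ∪ S2))).eval 1 =
      (derivative (chi G S1)).eval 1 * (derivative (chi G S2)).eval 1 := by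
    linarith
  rw [f3]
  ring

theorem desc3 (q : ℕ) : ((q.descFactorial 3 : ℕ) : ℤ) = (q : ℤ) * (q - 1) * (q - 2) := by
  rcases q with _ | _ | q
  · simp [Nat.descFactorial]
  · simp [Nat.descFactorial]
  · simp only [Nat.descFactorial]
    have e : (q + 1 + 1 - 2 : ℕ) = q := by omega
    have e1 : (q + 1 + 1 - 1 : ℕ) = q + 1 := by omega
    rw [e, e1]
    push_cast
    ring

/-- a triangle cut -/
theorem bet_clique3 (G : SimpleGraph V) (S1 S2 : Finset V) (x y z : V) (hs : Sep G S1 S2)
    (hI : S1 ∩ S2 = {x, y, z}) (hxy : G.Adj x y) (hyz : G.Adj y z) (hxz : G.Adj x z) :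
    bet G (S1 ∪ S2) = bet G S1 * bet G S2 := by
  have hx : x ∈ S1 ∩ S2 := by rw [hI]; simp
  have hy : y ∈ S1 ∩ S2 := by rw [hI]; simp
  rw [mem_inter] at hx hy
  have hc3 : (S1 ∩ S2).card = 3 := by
    rw [hI]
    exact card_eq_three.2 ⟨x, y, z, hxy.ne, hxz.ne, hyz.ne, rfl⟩
  have hg := iGlue V G S1 S2 hs (by
    intro u hu v hv huv
    rw [hI] at hu hv
    simp only [mem_insert, mem_singleton] at hu hv
    rcases hu with rfl | rfl | rfl <;> rcases hv with rfl | rfl | rfl
    · exact absurd rfl huv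
    · exact hxy
    · exact hxz
    · exact hxy.symm
    · exact absurd rfl huv
    · exact hyz
    · exact hxz.symm
    · exact hyz.symm
    · exact absurd rfl huv)
  have f1 : (X : ℤ[X]) * (X - C 1) * (X - C 2) * chi G (S1 ∪ S2) = chi G S1 * chi G S2 := by
    apply poly_ext
    intro q
    have h1 := hg q
    rw [hc3] at h1
    have h2 : ((q.descFactorial 3 : ℕ) : ℤ) * ((cols G (S1 ∪ S2) q).card : ℤ) =
        ((cols G S1 q).card : ℤ) * ((cols G S2 q).card : ℤ) := by exact_mod_cast h1
    rw [desc3] at h2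
    simp only [eval_mul, eval_sub, eval_X, eval_C]
    rw [iChi V G (S1 ∪ S2) q, iChi V G S1 q, iChi V G S2 q]
    exact h2
  have p0 := chi_one_zero G (S1 ∪ S2) x y (mem_union_left _ hx.1)
    (mem_union_left _ hy.1) hxy
  have p1 := chi_one_zero G S1 x y hx.1 hy.1 hxy
  have p2 := chi_one_zero G S2 x y hx.2 hy.2 hxy
  have f2 := congrArg (fun P : ℤ[X] => (derivative (derivative P)).eval 1) f1
  simp only [derivative_mul, derivative_add, derivative_X, derivative_sub, derivative_one,
    derivative_C, eval_mul, eval_add, eval_sub, eval_X, eval_one, eval_C, eval_zero, p0, p1, p2,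
    derivative_zero, sub_zero, mul_zero, zero_mul, add_zero, zero_add, sub_self, mul_one,
    one_mul] at f2
  have hcard : (S1 ∪ S2).card + 3 = S1.card + S2.card := by
    rw [← card_union_add_card_inter, hc3]
  unfold bet
  have hsgn : ((-1 : ℤ)) ^ (S1 ∪ S2).card = - ((-1) ^ S1.card * (-1) ^ S2.card) := by
    rw [← pow_add, ← hcard, pow_add]; norm_num
  rw [hsgn]
  have f3 : (derivative (chi G (S1 ∪ S2))).eval 1 =
      - ((derivative (chi G S1)).eval 1 * (derivative (chi G S2)).eval 1) := by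
    linarith
  rw [f3]
  ring

/-! ### The 3-cut formula -/

theorem sep_con {G : SimpleGraph V} {S1 S2 : Finset V} (hs : Sep G S1 S2) (v w : V)
    (hw1 : w ∈ S1) (hw2 : w ∈ S2) : Sep (con G v w) (S1.erase v) (S2.erase v) := by
  intro a ha ha' b hb hb' hab
  rw [mem_erase] at ha hb
  rw [mem_erase, not_and] at ha' hb'
  have ha2 := ha' ha.1
  have hb1 := hb' hb.1
  rcases hab with ⟨_, h | h | h⟩
  · exact hs a ha.2 ha2 b hb.2 hb1 h
  · exact ha2 (h.1 ▸ hw2)
  · exact hb1 (h.1 ▸ hw1)

theorem sep_tri {G : SimpleGraph V} {S1 S2 : Finset V} (hs : Sep G S1 S2) (x y z : V)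
    (hI : {x, y, z} ⊆ S1 ∩ S2) : Sep (tri G x y z) S1 S2 := by
  intro a ha ha' b hb hb' hab
  rw [tri_adj] at hab
  rcases hab with h | ⟨_, h, _⟩
  · exact hs a ha ha' b hb hb' h
  · have : a ∈ S1 ∩ S2 := hI (by simp only [mem_insert, mem_singleton]; exact h)
    exact ha' (mem_inter.1 this).2

theorem union_erase (S1 S2 : Finset V) (v : V) :
    (S1 ∪ S2).erase v = S1.erase v ∪ S2.erase v := by
  ext z; simp only [mem_erase, mem_union]; tauto

theorem inter_erase (S1 S2 : Finset V) (v : V) :
    S1.erase v ∩ S2.erase v = (S1 ∩ S2).erase v := by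
  ext z; simp only [mem_erase, mem_inter]; tauto

open Classical in
/-- the 3-cut formula `β(X) = A A' - ∑ b_e b'_e` -/
theorem bet_cut3 (G : SimpleGraph V) (S1 S2 : Finset V) (x y z : V) (hxy : x ≠ y) (hyz : y ≠ z)
    (hxz : x ≠ z) (hI : S1 ∩ S2 = {x, y, z}) (hs : Sep G S1 S2)
    (h1 : ∃ a ∈ S1, a ∉ S2 ∧ (G.Adj a x ∨ G.Adj a y ∨ G.Adj a z))
    (h2 : ∃ a ∈ S2, a ∉ S1 ∧ (G.Adj a x ∨ G.Adj a y ∨ G.Adj a z)) :
    bet G (S1 ∪ S2) = bet (tri G x y z) S1 * bet (tri G x y z) S2
      - (if G.Adj x y then 0 else bet (con (tri G x y z) x y) (S1.erase x) *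
          bet (con (tri G x y z) x y) (S2.erase x))
      - (if G.Adj y z then 0 else bet (con (tri G x y z) y z) (S1.erase y) *
          bet (con (tri G x y z) y z) (S2.erase y))
      - (if G.Adj x z then 0 else bet (con (tri G x y z) x z) (S1.erase x) *
          bet (con (tri G x y z) x z) (S2.erase x)) := by
  have hx : x ∈ S1 ∩ S2 := by rw [hI]; simp
  have hy : y ∈ S1 ∩ S2 := by rw [hI]; simp
  have hz : z ∈ S1 ∩ S2 := by rw [hI]; simp
  rw [mem_inter] at hx hy hz
  set T := tri G x y z with hT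
  have hTxy : T.Adj x y := by rw [hT, tri_adj]; tauto
  have hTyz : T.Adj y z := by rw [hT, tri_adj]; tauto
  have hTxz : T.Adj x z := by rw [hT, tri_adj]; tauto
  have hsT : Sep T S1 S2 := sep_tri hs x y z (by rw [hI])
  have e0 : bet T (S1 ∪ S2) = bet T S1 * bet T S2 :=
    bet_clique3 T S1 S2 x y z hsT hI hTxy hTyz hTxz
  have exy : bet (con T x y) ((S1 ∪ S2).erase x) =
      bet (con T x y) (S1.erase x) * bet (con T x y) (S2.erase x) := by
    rw [union_erase]
    apply bet_cut2 _ _ _ y z (sep_con hsT x y hy.1 hy.2)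
    · rw [inter_erase, hI]
      ext u
      simp only [mem_erase, mem_insert, mem_singleton]
      constructor
      · tauto
      · rintro (rfl | rfl)
        · exact ⟨hxy.symm, by tauto⟩
        · exact ⟨hxz.symm, by tauto⟩
    · exact ⟨hyz, Or.inl hTyz⟩
  have eyz : bet (con T y z) ((S1 ∪ S2).erase y) =
      bet (con T y z) (S1.erase y) * bet (con T y z) (S2.erase y) := by
    rw [union_erase]
    apply bet_cut2 _ _ _ x z (sep_con hsT y z hz.1 hz.2)
    · rw [inter_erase, hI]
      ext u
      simp only [mem_erase, mem_insert, mem_singleton]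
      constructor
      · tauto
      · rintro (rfl | rfl)
        · exact ⟨hxy, by tauto⟩
        · exact ⟨hyz.symm, by tauto⟩
    · exact ⟨hxz, Or.inl hTxz⟩
  have exz : bet (con T x z) ((S1 ∪ S2).erase x) =
      bet (con T x z) (S1.erase x) * bet (con T x z) (S2.erase x) := by
    rw [union_erase]
    apply bet_cut2 _ _ _ y z (sep_con hsT x z hz.1 hz.2)
    · rw [inter_erase, hI]
      ext u
      simp only [mem_erase, mem_insert, mem_singleton]
      constructor
      · tauto
      · rintro (rfl | rfl)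
        · exact ⟨hxy.symm, by tauto⟩
        · exact ⟨hxz.symm, by tauto⟩
    · exact ⟨hyz, Or.inl hTyz⟩
  have edge : ∀ a : V, a ≠ x → a ≠ y → a ≠ z → (G.Adj a x ∨ G.Adj a y ∨ G.Adj a z) →
      (con (con T x y) y z).Adj a z := by
    intro a hax hay haz h
    have hG : ∀ u w, G.Adj u w → T.Adj u w := fun u w huw => by
      rw [hT, tri_adj]; exact Or.inl huw
    rw [con_adj]
    refine ⟨haz, ?_⟩
    rcases h with h | h | h
    · right; right
      refine ⟨rfl, ?_⟩
      rw [con_adj]
      exact ⟨hay.symm, Or.inr (Or.inl ⟨rfl, hG _ _ h.symm⟩)⟩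
    · right; right
      refine ⟨rfl, ?_⟩
      rw [con_adj]
      exact ⟨hay.symm, Or.inl (hG _ _ h.symm)⟩
    · left
      rw [con_adj]
      exact ⟨haz, Or.inl (hG _ _ h)⟩
  have etau : bet (con (con T x y) y z) (((S1 ∪ S2).erase x).erase y) = 0 := by
    rw [union_erase, union_erase]
    apply bet_cut1 _ _ _ z (sep_con (sep_con hsT x y hy.1 hy.2) y z
      (mem_erase.2 ⟨hxz.symm, hz.1⟩) (mem_erase.2 ⟨hxz.symm, hz.2⟩))
    · rw [inter_erase, inter_erase, hI]
      ext u
      simp only [mem_erase, mem_insert, mem_singleton]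
      constructor
      · tauto
      · rintro rfl
        exact ⟨hyz.symm, hxz.symm, by tauto⟩
    · obtain ⟨a, ha, ha', h⟩ := h1
      have hax : a ≠ x := fun e => ha' (e ▸ hx.2)
      have hay : a ≠ y := fun e => ha' (e ▸ hy.2)
      have haz : a ≠ z := fun e => ha' (e ▸ hz.2)
      exact ⟨a, mem_erase.2 ⟨hay, mem_erase.2 ⟨hax, ha⟩⟩, z,
        mem_erase.2 ⟨hyz.symm, mem_erase.2 ⟨hxz.symm, hz.1⟩⟩, edge a hax hay haz h⟩
    · obtain ⟨a, ha, ha', h⟩ := h2
      have hax : a ≠ x := fun e => ha' (e ▸ hx.1)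
      have hay : a ≠ y := fun e => ha' (e ▸ hy.1)
      have haz : a ≠ z := fun e => ha' (e ▸ hz.1)
      exact ⟨a, mem_erase.2 ⟨hay, mem_erase.2 ⟨hax, ha⟩⟩, z,
        mem_erase.2 ⟨hyz.symm, mem_erase.2 ⟨hxz.symm, hz.2⟩⟩, edge a hax hay haz h⟩
  rw [bet_tri G (S1 ∪ S2) x y z (mem_union_left _ hx.1) (mem_union_left _ hy.1)
    (mem_union_left _ hz.1) hxy hyz hxz, ← hT, e0, exy, eyz, exz, etau]
  simp only [ite_self, add_zero]

/-- contraction is symmetric -/
theorem bet_con_comm (G : SimpleGraph V) (S : Finset V) (v w : V) (hv : v ∈ S) (hw : w ∈ S)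
    (hvw : G.Adj v w) : bet (con G v w) (S.erase v) = bet (con G w v) (S.erase w) := by
  have h1 := iBetdc V G S v w hv hw hvw
  have h2 := iBetdc V G S w v hw hv hvw.symm
  have h3 : bet (del G v w) S = bet (del G w v) S := by
    apply bet_congr
    intro a _ b _
    rw [del_adj, del_adj]
    tauto
  linarith

end Pool.Agent.Xu.X2
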