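import Pool.Agent.Lib.MP_144d21_co.X2.IfaceS
import Pool.Agent.Lib.MP_144d21_co.X2.H16.Cut3
import Pool.Agent.Lib.MP_144d21_co.XU.H34.Con2
import Pool.Agent.Lib.MP_144d21_co.XU.H80.Base3

/-!
# MP_144d21_co, X2: modules BNN and BMON (helper16)
-/

set_option autoImplicit false
set_option linter.unusedSectionVars false
set_option linter.unusedVariables false

namespace Pool.Agent.Xu.X2

open Finset

variable {V : Type} [Fintype V] [DecidableEq V]

theorem conn_edge {G : SimpleGraph V} {S : Finset V} (h : Conn G S) (h2 : 2 ≤ S.card) {v : V}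
    (hv : v ∈ S) : ∃ w ∈ S, G.Adj v w := by
  have hne : ({v} : Finset V) ≠ S := by
    intro e
    rw [← e, card_singleton] at h2
    omega
  obtain ⟨a, ha, b, hb, hbA, hab⟩ := h.2 {v} (singleton_subset_iff.2 hv) (singleton_nonempty v) hne
  rw [mem_singleton] at ha
  subst ha
  exact ⟨b, hb, hab⟩

/-- a bridge -/
theorem bet_bridge {G : SimpleGraph V} {S A : Finset V} {v w : V} (hA : A ⊆ S) (hv : v ∈ A)
    (hw : w ∈ S) (hwA : w ∉ A) (hvw : G.Adj v w) (hc : Conn G S)
    (hb : ∀ a ∈ A, ∀ b ∈ S, b ∉ A → G.Adj a b → a = v ∧ b = w) (h2 : 2 ≤ A.card) :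
    bet G S = 0 := by
  have hU : S = A ∪ insert v (S \ A) := by
    ext u
    simp only [mem_union, mem_insert, mem_sdiff]
    constructor
    · intro h
      by_cases hu : u ∈ A
      · exact Or.inl hu
      · exact Or.inr (Or.inr ⟨h, hu⟩)
    · rintro (h | rfl | h)
      · exact hA h
      · exact hA hv
      · exact h.1
  have hI : A ∩ insert v (S \ A) = {v} := by
    ext u
    simp only [mem_inter, mem_insert, mem_sdiff, mem_singleton]
    constructor
    · rintro ⟨h, h1 | h1⟩
      · exact h1
      · exact absurd h h1.2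
    · rintro rfl
      exact ⟨hv, Or.inl rfl⟩
  rw [hU]
  refine bet_cut1 G A (insert v (S \ A)) v ?_ hI ?_ ?_
  · intro a ha ha' b hb' hbA hab
    rw [mem_insert, not_or] at ha'
    rw [mem_insert, mem_sdiff] at hb'
    rcases hb' with h | h
    · exact hbA (h ▸ hv)
    · exact ha'.1 (hb a ha b h.1 h.2 hab).1
  · obtain ⟨a0, ha0, b0, hb0, hab0⟩ : ∃ a ∈ A.erase v, ∃ b ∈ S, b ∉ A.erase v ∧ G.Adj a b := by
      apply hc.2
      · exact (erase_subset _ _).trans hA
      · rw [← card_pos, card_erase_of_mem hv]; omega
      · intro e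
        have : v ∈ A.erase v := by rw [e]; exact hA hv
        exact (mem_erase.1 this).1 rfl
    rw [mem_erase] at ha0
    by_cases hbA : b0 ∈ A
    · exact ⟨a0, ha0.2, b0, hbA, hab0.2⟩
    · exact absurd (hb a0 ha0.2 b0 hb0 hbA hab0.2).1 ha0.1
  · exact ⟨v, mem_insert_self _ _, w, mem_insert_of_mem (mem_sdiff.2 ⟨hw, hwA⟩), hvw⟩

theorem bnn_aux : ∀ (n : ℕ) (G : SimpleGraph V) (S : Finset V), S.card + ne G S ≤ n →
    Conn G S → 2 ≤ S.card → 0 ≤ bet G S := by
  intro n
  induction n with
  | zero => intro G S h _ h2; omega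
  | succ n ih =>
    intro G S hn hc h2
    obtain ⟨v, hv⟩ := hc.1
    obtain ⟨w, hw, hvw⟩ := conn_edge hc h2 hv
    rcases Nat.lt_or_ge 2 S.card with h3 | h3
    · have hne := (iNecnt V G S).1 v hv w hw hvw
      have hcard : (S.erase v).card + 1 = S.card := by
        rw [card_erase_of_mem hv]; omega
      by_cases hdel : Conn (del G v w) S
      · have e := iBetdc V G S v w hv hw hvw
        have h5 := ih (del G v w) S (by omega) hdel h2
        have h6 := ih (con G v w) (S.erase v) (by omega) (H34.con_conn hv hw hvw.ne hc) (by omega)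
        linarith
      · -- a bridge
        have : ∃ A ⊆ S, A.Nonempty ∧ A ≠ S ∧ ∀ a ∈ A, ∀ b ∈ S, b ∉ A → ¬ (del G v w).Adj a b := by
          by_contra hcon
          apply hdel
          refine ⟨hc.1, fun A hA hAn hAS => ?_⟩
          by_contra h7
          apply hcon
          refine ⟨A, hA, hAn, hAS, fun a ha b hb hbA hab => h7 ⟨a, ha, b, hb, hbA, hab⟩⟩
        obtain ⟨A, hA, hAn, hAS, hno⟩ := this
        have hcross : ∀ a ∈ A, ∀ b ∈ S, b ∉ A → G.Adj a b →
            (a = v ∧ b = w) ∨ (a = w ∧ b = v) := by
          intro a ha b hb hbA hab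
          by_contra h8
          rw [not_or] at h8
          exact hno a ha b hb hbA ⟨hab, h8.1, h8.2⟩
        obtain ⟨a, ha, b, hb, hbA, hab⟩ := hc.2 A hA hAn hAS
        have main : ∀ v w : V, v ∈ A → w ∈ S → w ∉ A → G.Adj v w →
            (∀ a ∈ A, ∀ b ∈ S, b ∉ A → G.Adj a b → a = v ∧ b = w) → bet G S = 0 := by
          intro v w hv hw hwA hvw hx
          rcases Nat.lt_or_ge A.card 2 with h9 | h9
          · have h10 : 2 ≤ (S \ A).card := by
              rw [card_sdiff_of_subset hA]; omega
            refine bet_bridge (A := S \ A) sdiff_subset (mem_sdiff.2 ⟨hw, hwA⟩) (hA hv)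
              (fun h => (mem_sdiff.1 h).2 hv) hvw.symm hc ?_ h10
            intro c hc' d hd hdA hcd
            rw [mem_sdiff] at hc' hdA
            have hdA' : d ∈ A := by
              by_contra h11
              exact hdA ⟨hd, h11⟩
            obtain ⟨e1, e2⟩ := hx d hdA' c hc'.1 hc'.2 hcd.symm
            exact ⟨e2, e1⟩
          · exact bet_bridge hA hv hw hwA hvw hc hx h9
        rcases hcross a ha b hb hbA hab with ⟨e1, e2⟩ | ⟨e1, e2⟩
        · have hva : v ∈ A := e1 ▸ ha
          have hwa : w ∉ A := e2 ▸ hbA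
          rw [main v w hva hw hwa hvw (fun a' ha' b' hb' hbA' hab' => by
            rcases hcross a' ha' b' hb' hbA' hab' with h | h
            · exact h
            · exact absurd (h.1 ▸ ha') hwa)]
        · have hwa : w ∈ A := e1 ▸ ha
          have hva : v ∉ A := e2 ▸ hbA
          rw [main w v hwa hv hva hvw.symm (fun a' ha' b' hb' hbA' hab' => by
            rcases hcross a' ha' b' hb' hbA' hab' with h | h
            · exact absurd (h.1 ▸ ha') hva
            · exact h)]
    · have h4 : S.card = 2 := le_antisymm h3 h2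
      have hS : S = {v, w} := by
        symm
        apply eq_of_subset_of_card_le
        · intro u hu
          rw [mem_insert, mem_singleton] at hu
          rcases hu with rfl | rfl
          · exact hv
          · exact hw
        · rw [h4, card_pair hvw.ne]
      have : bet G S = 1 := by
        apply H80.bet_clique2 _ h4
        intro x hx y hy hxy
        rw [hS, mem_insert, mem_singleton] at hx hy
        rcases hx with rfl | rfl <;> rcases hy with rfl | rfl
        · exact absurd rfl hxy
        · exact hvw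
        · exact hvw.symm
        · exact absurd rfl hxy
      rw [this]; norm_num

theorem bnn : BnnS := fun V _ _ G S hc h2 => bnn_aux _ G S le_rfl hc h2

open Classical in
theorem bmon_aux : ∀ (n : ℕ) (G F : SimpleGraph V) (S : Finset V),
    ((S ×ˢ S).filter fun x => F.Adj x.1 x.2 ∧ ¬ G.Adj x.1 x.2).card ≤ n →
    Conn G S → 2 ≤ S.card → bet G S ≤ bet (G ⊔ F) S := by
  intro n
  induction n with
  | zero =>
    intro G F S hn hc h2
    have h0 := card_eq_zero.1 (Nat.le_zero.1 hn)
    apply le_of_eq
    apply bet_congr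
    intro u hu v hv
    rw [SimpleGraph.sup_adj]
    constructor
    · exact fun h => Or.inl h
    · rintro (h | h)
      · exact h
      · by_contra h1
        have : (u, v) ∈ (S ×ˢ S).filter fun x => F.Adj x.1 x.2 ∧ ¬ G.Adj x.1 x.2 :=
          mem_filter.2 ⟨mem_product.2 ⟨hu, hv⟩, h, h1⟩
        rw [h0] at this
        exact absurd this (notMem_empty _)
  | succ n ih =>
    intro G F S hn hc h2
    by_cases hall : ∃ v ∈ S, ∃ w ∈ S, F.Adj v w ∧ ¬ G.Adj v w
    · obtain ⟨v, hv, w, hw, hF, hG⟩ := hall
      have hvw : v ≠ w := hF.ne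
      have h3 : 3 ≤ S.card := by
        by_contra h4
        have h5 : S.card = 2 := by omega
        have hS : S = {v, w} := by
          symm
          apply eq_of_subset_of_card_le
          · intro u hu
            rw [mem_insert, mem_singleton] at hu
            rcases hu with rfl | rfl
            · exact hv
            · exact hw
          · rw [h5, card_pair hvw]
        obtain ⟨u, hu, hvu⟩ := conn_edge hc h2 hv
        rw [hS, mem_insert, mem_singleton] at hu
        rcases hu with rfl | rfl
        · exact hvu.ne rfl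
        · exact hG hvu
      have hcadd : Conn (add G v w) S := H34.conn_mono hc fun a b h => Or.inl h
      have e := bet_add G S v w hv hw hvw hG
      have h6 : 0 ≤ bet (con (add G v w) v w) (S.erase v) :=
        bnn V _ _ (H34.con_conn hv hw hvw hcadd) (by rw [card_erase_of_mem hv]; omega)
      have h7 := ih (add G v w) F S (by
        have hlt : ((S ×ˢ S).filter fun x => F.Adj x.1 x.2 ∧ ¬ (add G v w).Adj x.1 x.2).card <
            ((S ×ˢ S).filter fun x => F.Adj x.1 x.2 ∧ ¬ G.Adj x.1 x.2).card := by
          apply card_lt_card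
          rw [ssubset_iff_of_subset]
          · refine ⟨(v, w), mem_filter.2 ⟨mem_product.2 ⟨hv, hw⟩, hF, hG⟩, ?_⟩
            intro h8
            exact (mem_filter.1 h8).2.2 (Or.inr ⟨hvw, Or.inl ⟨rfl, rfl⟩⟩)
          · intro x hx
            rw [mem_filter] at hx ⊢
            exact ⟨hx.1, hx.2.1, fun h9 => hx.2.2 (Or.inl h9)⟩
        omega) hcadd h2
      have h8 : bet (add G v w ⊔ F) S = bet (G ⊔ F) S := by
        apply bet_congr
        intro a _ b _
        rw [SimpleGraph.sup_adj, SimpleGraph.sup_adj, add_adj]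
        constructor
        · rintro ((h | ⟨_, h⟩) | h)
          · exact Or.inl h
          · rcases h with ⟨rfl, rfl⟩ | ⟨rfl, rfl⟩
            · exact Or.inr hF
            · exact Or.inr hF.symm
          · exact Or.inr h
        · rintro (h | h)
          · exact Or.inl (Or.inl h)
          · exact Or.inr h
      rw [h8] at h7
      linarith
    · apply ih G F S _ hc h2
      have : ((S ×ˢ S).filter fun x => F.Adj x.1 x.2 ∧ ¬ G.Adj x.1 x.2) = ∅ := by
        rw [eq_empty_iff_forall_notMem]
        intro x hx
        rw [mem_filter, mem_product] at hx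
        exact hall ⟨x.1, hx.1.1, x.2, hx.1.2, hx.2.1, hx.2.2⟩
      rw [this]
      simp

theorem bmon : BmonS := fun V _ _ G F S hc h2 => bmon_aux _ G F S le_rfl hc h2

end Pool.Agent.Xu.X2
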