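import Pool.Agent.Lib.MP_144d21_co.X2.H16.T1

/-!
# MP_144d21_co, X2: modules STX, DG3, DG3A, K4 (helper16)
-/

set_option autoImplicit false
set_option linter.unusedSectionVars false
set_option linter.unusedVariables false

namespace Pool.Agent.Xu.X2

open Finset

variable {V : Type} [Fintype V] [DecidableEq V]

theorem stg_adj {k : ℕ} {x : Fin k → V} {i : Fin k} {a b : V} : (stg x i).Adj a b ↔
    a ≠ b ∧ ∃ j, i < j ∧ ((a = x i ∧ b = x j) ∨ (a = x j ∧ b = x i)) := Iff.rfl

/-- a pendant vertex -/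
theorem bet_pendant {G : SimpleGraph V} {S : Finset V} {v w : V} (hv : v ∈ S) (hw : w ∈ S)
    (hvw : G.Adj v w) (hn : ∀ u ∈ S, G.Adj v u → u = w)
    (he : ∃ a ∈ S.erase v, ∃ b ∈ S.erase v, G.Adj a b) : bet G S = 0 := by
  have hU : S = {v, w} ∪ S.erase v := by
    ext u
    simp only [mem_union, mem_insert, mem_singleton, mem_erase]
    constructor
    · intro h
      by_cases hu : u = v
      · exact Or.inl (Or.inl hu)
      · exact Or.inr ⟨hu, h⟩
    · rintro ((rfl | rfl) | h)
      · exact hv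
      · exact hw
      · exact h.2
  have hI : ({v, w} : Finset V) ∩ S.erase v = {w} := by
    ext u
    simp only [mem_inter, mem_insert, mem_singleton, mem_erase]
    constructor
    · rintro ⟨h | h, h1, _⟩
      · exact absurd h h1
      · exact h
    · rintro rfl
      exact ⟨Or.inr rfl, hvw.ne', hw⟩
  rw [hU]
  refine bet_cut1 G {v, w} (S.erase v) w ?_ hI ?_ he
  · intro a ha ha' b hb hb' hab
    rw [mem_insert, mem_singleton] at ha
    rw [mem_insert, mem_singleton, not_or] at hb'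
    rcases ha with rfl | rfl
    · exact hb'.2 (hn b (mem_erase.1 hb).2 hab)
    · exact ha' (mem_erase.2 ⟨hvw.ne', hw⟩)
  · exact ⟨v, by simp, w, by simp, hvw⟩

/-- `G` with the edges from `v` outside `N` deleted -/
def kp (G : SimpleGraph V) (v : V) (N : Finset V) : SimpleGraph V where
  Adj a b := G.Adj a b ∧ (a = v → b ∈ N) ∧ (b = v → a ∈ N)
  symm := ⟨fun _ _ h => ⟨h.1.symm, h.2.2, h.2.1⟩⟩
  loopless := ⟨fun _ h => h.1.ne rfl⟩

/-- `G` with the edges from `c` to `N` added -/
def ad (G : SimpleGraph V) (c : V) (N : Finset V) : SimpleGraph V where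
  Adj a b := G.Adj a b ∨ (a ≠ b ∧ ((a = c ∧ b ∈ N) ∨ (b = c ∧ a ∈ N)))
  symm := ⟨fun _ _ h => h.elim (fun h => Or.inl h.symm)
    fun h => Or.inr ⟨h.1.symm, h.2.elim (fun h => Or.inr h) fun h => Or.inl h⟩⟩
  loopless := ⟨fun _ h => h.elim (fun h => h.ne rfl) fun h => h.1 rfl⟩

theorem kp_adj {G : SimpleGraph V} {v : V} {N : Finset V} {a b : V} : (kp G v N).Adj a b ↔
    G.Adj a b ∧ (a = v → b ∈ N) ∧ (b = v → a ∈ N) := Iff.rfl

theorem ad_adj {G : SimpleGraph V} {c : V} {N : Finset V} {a b : V} : (ad G c N).Adj a b ↔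
    G.Adj a b ∨ (a ≠ b ∧ ((a = c ∧ b ∈ N) ∨ (b = c ∧ a ∈ N))) := Iff.rfl

/-- one step of the star expansion -/
theorem kp_step {G : SimpleGraph V} {S N : Finset V} {v c : V} (hv : v ∈ S) (hc : c ∈ S)
    (hcN : c ∈ N) (hvc : G.Adj v c) (hN : ∀ u ∈ N, G.Adj v u) :
    bet (kp G v N) S = bet (kp G v (N.erase c)) S + bet (ad G c (N.erase c)) (S.erase v) := by
  have hadj : (kp G v N).Adj v c := ⟨hvc, fun _ => hcN, fun h => absurd h hvc.ne'⟩
  rw [iBetdc V (kp G v N) S v c hv hc hadj]
  congr 1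
  · apply bet_congr
    intro a _ b _
    rw [del_adj, kp_adj, kp_adj]
    simp only [mem_erase]
    constructor
    · rintro ⟨⟨h1, h2, h3⟩, h4, h5⟩
      exact ⟨h1, fun e => ⟨fun e2 => h4 ⟨e, e2⟩, h2 e⟩, fun e => ⟨fun e2 => h5 ⟨e2, e⟩, h3 e⟩⟩
    · rintro ⟨h1, h2, h3⟩
      exact ⟨⟨h1, fun e => (h2 e).2, fun e => (h3 e).2⟩, fun e => (h2 e.1).1 e.2,
        fun e => (h3 e.2).1 e.1⟩
  · apply bet_congr
    intro a ha b hb
    rw [mem_erase] at ha hb
    rw [con_adj, ad_adj]
    simp only [kp_adj, mem_erase]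
    constructor
    · rintro ⟨h1, h2 | h2 | h2⟩
      · exact Or.inl h2.1
      · refine Or.inr ⟨h1, Or.inl ⟨h2.1, fun e => h1 (h2.1.trans e.symm), h2.2.2.1 trivial⟩⟩
      · refine Or.inr ⟨h1, Or.inr ⟨h2.1, fun e => h1 (e.trans h2.1.symm), h2.2.2.1 trivial⟩⟩
    · rintro (h | ⟨h1, h2 | h2⟩)
      · exact ⟨h.ne, Or.inl ⟨h, fun e => absurd e ha.1, fun e => absurd e hb.1⟩⟩
      · exact ⟨h1, Or.inr (Or.inl ⟨h2.1, hN b h2.2.2, fun _ => h2.2.2, fun e => absurd e hb.1⟩)⟩
      · exact ⟨h1, Or.inr (Or.inr ⟨h2.1, hN a h2.2.2, fun _ => h2.2.2, fun e => absurd e ha.1⟩)⟩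

theorem stx : StxS := by
  intro V _ _ G S v k x h3 hv hx hn
  classical
  have hxn : ∀ i, x i ∈ nb G S v := fun i => by rw [← hn]; exact mem_image_of_mem x (mem_univ i)
  have hxS : ∀ i, x i ∈ S := fun i => (mem_nb.1 (hxn i)).1
  have hxv : ∀ i, G.Adj v (x i) := fun i => (mem_nb.1 (hxn i)).2
  -- remaining neighbours after `i` steps
  set N : ℕ → Finset V := fun i => (univ.filter fun j : Fin (k + 1) => i ≤ (j : ℕ)).image x with hNd
  have memN : ∀ (i : ℕ) (j : Fin (k + 1)), x j ∈ N i ↔ i ≤ (j : ℕ) := by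
    intro i j
    simp only [hNd, mem_image, mem_filter, mem_univ, true_and]
    constructor
    · rintro ⟨l, hl, e⟩
      rw [← hx e]; exact hl
    · intro h
      exact ⟨j, h, rfl⟩
  have memN' : ∀ (i : ℕ) (u : V), u ∈ N i ↔ ∃ j : Fin (k + 1), i ≤ (j : ℕ) ∧ x j = u := by
    intro i u
    simp only [hNd, mem_image, mem_filter, mem_univ, true_and]
  have hNadj : ∀ i, ∀ u ∈ N i, G.Adj v u := by
    intro i u hu
    obtain ⟨j, _, rfl⟩ := (memN' i u).1 hu
    exact hxv j
  have hstep : ∀ i : ℕ, ∀ hi : i < k, bet (kp G v (N i)) S = bet (kp G v (N (i + 1))) S +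
      bet (G ⊔ stg x (⟨i, hi⟩ : Fin k).castSucc) (S.erase v) := by
    intro i hi
    set ii : Fin (k + 1) := (⟨i, hi⟩ : Fin k).castSucc with hii
    have hiv : (ii : ℕ) = i := rfl
    have hcN : x ii ∈ N i := (memN i ii).2 (by rw [hiv])
    rw [kp_step hv (hxS ii) hcN (hxv ii) (hNadj i)]
    have e1 : (N i).erase (x ii) = N (i + 1) := by
      ext u
      rw [mem_erase, memN', memN']
      constructor
      · rintro ⟨h1, j, hj, rfl⟩
        refine ⟨j, ?_, rfl⟩
        have : (j : ℕ) ≠ i := fun e => h1 (by congr 1; exact Fin.ext (by rw [hiv]; exact e))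
        omega
      · rintro ⟨j, hj, rfl⟩
        refine ⟨fun e => ?_, j, by omega, rfl⟩
        have := hx e
        rw [this, hiv] at hj
        omega
    rw [e1]
    congr 1
    apply bet_congr
    intro a ha b hb
    rw [ad_adj, SimpleGraph.sup_adj, stg_adj]
    refine or_congr Iff.rfl (and_congr Iff.rfl ?_)
    constructor
    · rintro (⟨h1, h2⟩ | ⟨h1, h2⟩)
      · obtain ⟨j, hj, rfl⟩ := (memN' _ _).1 h2
        exact ⟨j, Fin.lt_def.2 (by rw [hiv]; omega), Or.inl ⟨h1, rfl⟩⟩
      · obtain ⟨j, hj, rfl⟩ := (memN' _ _).1 h2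
        exact ⟨j, Fin.lt_def.2 (by rw [hiv]; omega), Or.inr ⟨rfl, h1⟩⟩
    · rintro ⟨j, hj, ⟨h1, h2⟩ | ⟨h1, h2⟩⟩
      · have := Fin.lt_def.1 hj
        rw [hiv] at this
        exact Or.inl ⟨h1, (memN' _ _).2 ⟨j, by omega, h2.symm⟩⟩
      · have := Fin.lt_def.1 hj
        rw [hiv] at this
        exact Or.inr ⟨h2, (memN' _ _).2 ⟨j, by omega, h1.symm⟩⟩
  have hsum : ∀ i : ℕ, ∀ hi : i ≤ k, bet (kp G v (N 0)) S = bet (kp G v (N i)) S +
      ∑ j ∈ (univ : Finset (Fin k)).filter (fun j : Fin k => (j : ℕ) < i),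
        bet (G ⊔ stg x j.castSucc) (S.erase v) := by
    intro i
    induction i with
    | zero => intro _; simp
    | succ i ih =>
      intro hi
      rw [ih (by omega), hstep i (by omega)]
      have e : (univ : Finset (Fin k)).filter (fun j : Fin k => (j : ℕ) < i + 1) =
          insert (⟨i, by omega⟩ : Fin k) ((univ : Finset (Fin k)).filter fun j : Fin k => (j : ℕ) < i) := by
        ext j
        simp only [mem_filter, mem_univ, true_and, mem_insert, Fin.ext_iff]
        omega
      rw [e, sum_insert (by simp)]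
      ring
  have h0 : bet G S = bet (kp G v (N 0)) S := by
    apply bet_congr
    intro a ha b hb
    rw [kp_adj]
    constructor
    · intro h
      refine ⟨h, ?_, ?_⟩
      · rintro rfl
        have : b ∈ nb G S a := mem_nb.2 ⟨hb, h⟩
        rw [← hn, mem_image] at this
        obtain ⟨j, _, hj⟩ := this
        exact (memN' _ _).2 ⟨j, Nat.zero_le _, hj⟩
      · rintro rfl
        have : a ∈ nb G S b := mem_nb.2 ⟨ha, h.symm⟩
        rw [← hn, mem_image] at this
        obtain ⟨j, _, hj⟩ := this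
        exact (memN' _ _).2 ⟨j, Nat.zero_le _, hj⟩
    · exact fun h => h.1
  have hlast : bet (kp G v (N k)) S = 0 := by
    have hk : x (Fin.last k) ∈ N k := (memN k _).2 (by simp)
    have hlk : (kp G v (N k)).Adj v (x (Fin.last k)) :=
      ⟨hxv _, fun _ => hk, fun e => absurd e (hxv _).ne'⟩
    apply bet_pendant hv (hxS (Fin.last k)) hlk
    · intro u hu h
      obtain ⟨j, hj, rfl⟩ := (memN' k u).1 (h.2.1 rfl)
      congr 1
      apply Fin.ext
      have := j.isLt
      simp only [Fin.val_last]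
      omega
    · -- an edge outside `v`
      have h4 := h3.1
      have hc : Conn G (S.erase v) := h3.2.1.2.2 v hv
      obtain ⟨a, ha⟩ := hc.1
      obtain ⟨b, hb, hab⟩ := conn_edge hc (by rw [card_erase_of_mem hv]; omega) ha
      exact ⟨a, ha, b, hb, hab, fun e => absurd e (mem_erase.1 ha).1,
        fun e => absurd e (mem_erase.1 hb).1⟩
  rw [h0, hsum k le_rfl, hlast, zero_add]
  apply sum_congr _ (fun _ _ => rfl)
  ext j
  simp

theorem dg3 : Dg3S := by
  intro V _ _ G S v t h3 hv ht hn i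
  -- the neighbours in the order `t i, t (i+1), t (i+2)`
  set x : Fin 3 → V := fun j => t (i + j) with hxd
  have hx : Function.Injective x := by
    intro a b hab
    have := ht hab
    exact add_left_cancel this
  have hxn : univ.image x = nb G S v := by
    rw [hn]
    ext a
    rw [mem_image]
    unfold tS
    rw [mem_image]
    constructor
    · rintro ⟨j, _, rfl⟩; exact ⟨i + j, mem_univ _, rfl⟩
    · rintro ⟨j, _, rfl⟩
      exact ⟨j - i, mem_univ _, by simp [hxd]⟩
  have e := stx V G S v 2 x h3 hv hx hxn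
  rw [Fin.sum_univ_two] at e
  rw [e]
  have x0 : x 0 = t i := by simp [hxd]
  have x1 : x 1 = t (i + 1) := rfl
  have x2 : x 2 = t (i + 2) := rfl
  have f1 : ∀ i : Fin 3, i + 1 + 1 = i + 2 := by decide
  have f2 : ∀ i : Fin 3, i + 1 + 2 = i := by decide
  have f3 : ∀ i : Fin 3, i + 2 + 1 = i := by decide
  have f4 : ∀ i : Fin 3, i + 2 + 2 = i + 1 := by decide
  have n01 : t i ≠ t (i + 1) := fun e => by
    have := ht e; revert this; clear * -; revert i; decide
  have n02 : t i ≠ t (i + 2) := fun e => by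
    have := ht e; revert this; clear * -; revert i; decide
  have n12 : t (i + 1) ≠ t (i + 2) := fun e => by
    have := ht e; revert this; clear * -; revert i; decide
  congr 1
  · apply bet_congr
    intro a ha b hb
    rw [SimpleGraph.sup_adj, SimpleGraph.sup_adj, stg_adj, tE_adj]
    refine or_congr Iff.rfl (and_congr Iff.rfl ?_)
    constructor
    · rintro ⟨j, hj, h⟩
      have hj' : j = 1 ∨ j = 2 := by
        revert hj; clear * -; revert j; decide
      have hc0 : ((0 : Fin 2).castSucc : Fin 3) = 0 := rfl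
      rw [hc0, x0] at h
      rcases hj' with rfl | rfl
      · -- pair `t i, t (i+1)` = pair `i + 2`
        refine ⟨i + 2, by simp, ?_⟩
        rw [x1] at h
        rw [f3, f4]
        tauto
      · refine ⟨i + 1, by simp, ?_⟩
        rw [x2] at h
        rw [f1, f2]
        tauto
    · rintro ⟨j, hj, h⟩
      rw [mem_insert, mem_singleton] at hj
      have hc0 : ((0 : Fin 2).castSucc : Fin 3) = 0 := rfl
      rw [hc0, x0]
      rcases hj with rfl | rfl
      · refine ⟨2, by decide, ?_⟩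
        rw [f1, f2] at h
        rw [x2]
        tauto
      · refine ⟨1, by decide, ?_⟩
        rw [f3, f4] at h
        rw [x1]
        tauto
  · apply bet_congr
    intro a ha b hb
    rw [SimpleGraph.sup_adj, SimpleGraph.sup_adj, stg_adj, tE_adj]
    refine or_congr Iff.rfl (and_congr Iff.rfl ?_)
    have hc1 : ((1 : Fin 2).castSucc : Fin 3) = 1 := rfl
    rw [hc1, x1]
    constructor
    · rintro ⟨j, hj, h⟩
      have hj' : j = 2 := by
        revert hj; clear * -; revert j; decide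
      subst hj'
      rw [x2] at h
      exact ⟨i, mem_singleton_self i, h⟩
    · rintro ⟨j, hj, h⟩
      rw [mem_singleton] at hj
      subst hj
      refine ⟨2, by decide, ?_⟩
      rw [x2]
      exact h

/-- the 3-cut around a vertex of degree 3 -/
theorem cut3_nb {G : SimpleGraph V} {S : Finset V} {v : V} {t : Fin 3 → V} (h5 : 5 ≤ S.card)
    (hv : v ∈ S) (ht : Function.Injective t) (hn : nb G S v = tS t) :
    Cut3 G S (tS t) ((S.erase v) \ tS t) {v} ∧ tS t ∪ ((S.erase v) \ tS t) = S.erase v := by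
  have hTS : ∀ a ∈ tS t, a ∈ S ∧ G.Adj v a := fun a ha => mem_nb.1 (by rw [hn]; exact ha)
  have hvT : v ∉ tS t := fun h => (hTS v h).2.ne rfl
  have hTe : tS t ⊆ S.erase v := fun a ha => mem_erase.2 ⟨(hTS a ha).2.ne', (hTS a ha).1⟩
  have hc3 : (tS t).card = 3 := by
    unfold tS
    rw [card_image_of_injective _ ht]; rfl
  have hU : tS t ∪ ((S.erase v) \ tS t) = S.erase v := union_sdiff_of_subset hTe
  refine ⟨⟨hc3, ?_, disjoint_sdiff, ?_, ?_, ?_, singleton_nonempty v, ?_⟩, hU⟩
  · rw [hU]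
    ext a
    simp only [mem_union, mem_erase, mem_singleton]
    constructor
    · rintro (h | rfl)
      · exact h.2
      · exact hv
    · intro h
      by_cases ha : a = v
      · exact Or.inr ha
      · exact Or.inl ⟨ha, h⟩
  · rw [disjoint_singleton_right]; exact hvT
  · rw [disjoint_singleton_right, mem_sdiff, mem_erase]
    exact fun h => h.1.1 rfl
  · rw [← card_pos, card_sdiff_of_subset hTe, card_erase_of_mem hv, hc3]; omega
  · intro a ha b hb hab
    rw [mem_singleton] at hb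
    subst hb
    rw [mem_sdiff, mem_erase] at ha
    apply ha.2
    rw [← hn]
    exact mem_nb.2 ⟨ha.1.2, hab.symm⟩

theorem sup_tE_univ (G : SimpleGraph V) (t : Fin 3 → V) : G ⊔ tE t univ = G ⊔ cl (tS t) := by
  apply le_antisymm
  · exact sup_le_sup_left (tE_le_cl t univ) G
  · apply sup_le le_sup_left
    intro a b h
    right
    obtain ⟨hab, ha, hb⟩ := h
    unfold tS at ha hb
    obtain ⟨i, _, rfl⟩ := mem_image.1 ha
    obtain ⟨j, _, rfl⟩ := mem_image.1 hb
    have hij : i ≠ j := fun e => hab (by rw [e])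
    have key : ∀ i j : Fin 3, i ≠ j → ∃ l : Fin 3, (i = l + 1 ∧ j = l + 2) ∨
        (i = l + 2 ∧ j = l + 1) := by decide
    obtain ⟨l, h | h⟩ := key i j hij
    · exact ⟨hab, l, mem_univ _, Or.inl ⟨by rw [h.1], by rw [h.2]⟩⟩
    · exact ⟨hab, l, mem_univ _, Or.inr ⟨by rw [h.1], by rw [h.2]⟩⟩

theorem dg3a : Dg3aS := by
  intro V _ _ G S v t h3 h5 hv ht hn
  classical
  obtain ⟨hcut, hU⟩ := cut3_nb h5 hv ht hn
  obtain ⟨a1, -, a3, a4⟩ := af V G S (tS t) ((S.erase v) \ tS t) {v} t h3 hcut ht rfl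
  rw [hU] at a1 a3 a4
  have hA : bet (G ⊔ tE t univ) (S.erase v) = ba G (S.erase v) t := by
    rw [sup_tE_univ]; rfl
  have hA0 := a4 univ
  rw [hA] at hA0 ⊢
  have hd := dg3 V G S v t h3 hv ht hn
  by_cases hm : mis G t = univ
  · have e : ∀ i : Fin 3, ∑ j ∈ mis G t \ {i}, bc G (S.erase v) t j =
        bc G (S.erase v) t (i + 1) + bc G (S.erase v) t (i + 2) := by
      intro i
      rw [hm]
      have h1 : (univ : Finset (Fin 3)) \ {i} = {i + 1, i + 2} := by
        revert i; decide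
      have h2 : i + 1 ≠ i + 2 := by revert i; decide
      rw [h1, sum_pair h2]
    have e' : ∀ i : Fin 3, ∑ j ∈ mis G t \ {i + 1, i + 2}, bc G (S.erase v) t j =
        bc G (S.erase v) t i := by
      intro i
      rw [hm]
      have h1 : (univ : Finset (Fin 3)) \ {i + 1, i + 2} = {i} := by
        revert i; decide
      rw [h1, sum_singleton]
    have k : ∀ i : Fin 3, 0 ≤ ba G (S.erase v) t -
        (bc G (S.erase v) t (i + 1) + bc G (S.erase v) t (i + 2)) := by
      intro i
      have h1 := a1 {i} (Or.inl (singleton_ne_empty i))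
      rw [e i] at h1
      rw [← h1]
      exact a4 {i}
    have k0 := k 0
    have k1 := k 1
    have k2 := k 2
    have h0 := hd 0
    rw [a1 {0 + 1, 0 + 2} (Or.inl (insert_ne_empty _ _)), a1 {0} (Or.inl (singleton_ne_empty _)),
      e, e'] at h0
    have f0 : (0 : Fin 3) + 1 = 1 := rfl
    have f1 : (0 : Fin 3) + 2 = 2 := rfl
    have f2 : (1 : Fin 3) + 1 = 2 := rfl
    have f3 : (1 : Fin 3) + 2 = 0 := rfl
    have f4 : (2 : Fin 3) + 1 = 0 := rfl
    have f5 : (2 : Fin 3) + 2 = 1 := rfl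
    rw [f0, f1] at k0 h0
    rw [f2, f3] at k1
    rw [f4, f5] at k2
    linarith
  · obtain ⟨i, hi⟩ : ∃ i, i ∉ mis G t := by
      by_contra hcon
      apply hm
      rw [eq_univ_iff_forall]
      intro i
      by_contra h
      exact hcon ⟨i, h⟩
    have h0 := hd i
    rw [a1 {i + 1, i + 2} (Or.inl (insert_ne_empty _ _))] at h0
    have h1 : mis G t \ {i + 1, i + 2} = ∅ := by
      rw [sdiff_eq_empty_iff_subset]
      intro j hj
      have hji : j ≠ i := fun e => hi (e ▸ hj)
      have key : ∀ i j : Fin 3, j ≠ i → j ∈ ({i + 1, i + 2} : Finset (Fin 3)) := by decide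
      exact key i j hji
    rw [h1, sum_empty, sub_zero] at h0
    have := a4 {i}
    linarith

theorem k4 : K4S := by
  intro V _ _ G S h3 h4
  have hcl : ∀ x ∈ S, ∀ y ∈ S, x ≠ y → G.Adj x y := by
    intro x hx y hy hxy
    have hsub : ({x, y} : Finset V) ⊆ S := by
      intro a ha
      rw [mem_insert, mem_singleton] at ha
      rcases ha with rfl | rfl
      · exact hx
      · exact hy
    have h1 := H43.conn3 h3 (S \ {x, y}) sdiff_subset (by
      rw [card_sdiff_of_subset hsub, h4, card_pair hxy])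
    rw [Finset.sdiff_sdiff_eq_self hsub] at h1
    obtain ⟨b, hb, hab⟩ := conn_edge h1 (by rw [card_pair hxy]) (v := x) (by simp)
    rw [mem_insert, mem_singleton] at hb
    rcases hb with rfl | rfl
    · exact absurd rfl hab.ne
    · exact hab
  unfold bet
  rw [H80.chi_clique hcl, h4]
  rw [show (4 : ℕ) = ((1 + 1) + 1) + 1 from rfl, descPochhammer_succ_right,
    descPochhammer_succ_right, descPochhammer_succ_right, descPochhammer_one]
  simp [Polynomial.derivative_mul]

end Pool.Agent.Xu.X2
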