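import Pool.Agent.Lib.MP_144d21_co.X2.H16.Bnn
import Pool.Agent.Lib.MP_144d21_co.XU.H43.Conn3

/-!
# MP_144d21_co, X2: modules T1 and AF (helper16)
-/

set_option autoImplicit false
set_option linter.unusedSectionVars false
set_option linter.unusedVariables false

namespace Pool.Agent.Xu.X2

open Finset

variable {V : Type} [Fintype V] [DecidableEq V]

theorem mem_tS {t : Fin 3 → V} {a : V} : a ∈ tS t ↔ a = t 0 ∨ a = t 1 ∨ a = t 2 := by
  unfold tS
  rw [mem_image]
  constructor
  · rintro ⟨i, -, rfl⟩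
    fin_cases i
    · exact Or.inl rfl
    · exact Or.inr (Or.inl rfl)
    · exact Or.inr (Or.inr rfl)
  · rintro (h | h | h)
    · exact ⟨0, mem_univ _, h.symm⟩
    · exact ⟨1, mem_univ _, h.symm⟩
    · exact ⟨2, mem_univ _, h.symm⟩

theorem tS_eq (t : Fin 3 → V) : tS t = {t 0, t 1, t 2} := by
  ext a
  rw [mem_tS]
  simp only [mem_insert, mem_singleton]

theorem cl_adj {T : Finset V} {a b : V} : (cl T).Adj a b ↔ a ≠ b ∧ a ∈ T ∧ b ∈ T := Iff.rfl

theorem tE_adj {t : Fin 3 → V} {I : Finset (Fin 3)} {a b : V} : (tE t I).Adj a b ↔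
    a ≠ b ∧ ∃ i ∈ I, (a = t (i + 1) ∧ b = t (i + 2)) ∨ (a = t (i + 2) ∧ b = t (i + 1)) := Iff.rfl

theorem tE_le_cl (t : Fin 3 → V) (I : Finset (Fin 3)) : tE t I ≤ cl (tS t) := by
  intro a b h
  obtain ⟨hab, i, _, h⟩ := h
  refine ⟨hab, ?_, ?_⟩
  · rcases h with h | h
    · rw [h.1]; exact mem_image_of_mem t (mem_univ _)
    · rw [h.1]; exact mem_image_of_mem t (mem_univ _)
  · rcases h with h | h
    · rw [h.2]; exact mem_image_of_mem t (mem_univ _)
    · rw [h.2]; exact mem_image_of_mem t (mem_univ _)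

theorem tri_eq (G : SimpleGraph V) (t : Fin 3 → V) :
    tri G (t 0) (t 1) (t 2) = G ⊔ cl (tS t) := by
  ext a b
  rw [tri_adj, SimpleGraph.sup_adj, cl_adj, mem_tS, mem_tS]

/-- `tri` does not see edges inside `T` -/
theorem tri_sup_tE (G : SimpleGraph V) (t : Fin 3 → V) (I : Finset (Fin 3)) :
    (G ⊔ tE t I) ⊔ cl (tS t) = G ⊔ cl (tS t) := by
  rw [sup_assoc, sup_eq_right.2 (tE_le_cl t I)]

theorem fin_a : ∀ i j : Fin 3, i + 1 = j + 1 → i = j := by decide

theorem fin_b : ∀ i j : Fin 3, i + 1 = j + 2 → i + 2 = j + 1 → False := by decide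

theorem fin_c : ∀ i : Fin 3, i + 1 = i + 2 → False := by decide

/-- the pair `i` in `G ⊔ tE t I` -/
theorem adj_sup_tE {G : SimpleGraph V} {t : Fin 3 → V} (ht : Function.Injective t)
    {I : Finset (Fin 3)} (i : Fin 3) : (G ⊔ tE t I).Adj (t (i + 1)) (t (i + 2)) ↔
      G.Adj (t (i + 1)) (t (i + 2)) ∨ i ∈ I := by
  rw [SimpleGraph.sup_adj, tE_adj]
  refine or_congr Iff.rfl ?_
  constructor
  · rintro ⟨_, j, hj, h | h⟩
    · have e : i = j := fin_a i j (ht h.1)
      exact e ▸ hj
    · exact (fin_b i j (ht h.1) (ht h.2)).elim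
  · intro h
    exact ⟨fun e => fin_c i (ht e), i, h, Or.inl ⟨rfl, rfl⟩⟩

theorem mem_mis {G : SimpleGraph V} {t : Fin 3 → V} {i : Fin 3} :
    i ∈ mis G t ↔ ¬ G.Adj (t (i + 1)) (t (i + 2)) := by
  classical
  unfold mis
  rw [mem_filter]
  simp

theorem mis_sup_tE {G : SimpleGraph V} {t : Fin 3 → V} (ht : Function.Injective t)
    (I : Finset (Fin 3)) : mis (G ⊔ tE t I) t = mis G t \ I := by
  ext i
  rw [mem_mis, adj_sup_tE ht, mem_sdiff, mem_mis, not_or]

/-- contraction at the pair `i` in the form of `bet_tri` -/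
theorem bc_zero (G : SimpleGraph V) (S : Finset V) (t : Fin 3 → V) : bc G S t 0 =
    bet (con (tri G (t 0) (t 1) (t 2)) (t 1) (t 2)) (S.erase (t 1)) := by
  rw [tri_eq]; rfl

theorem bc_two (G : SimpleGraph V) (S : Finset V) (t : Fin 3 → V) : bc G S t 2 =
    bet (con (tri G (t 0) (t 1) (t 2)) (t 0) (t 1)) (S.erase (t 0)) := by
  rw [tri_eq]; rfl

theorem bc_one (G : SimpleGraph V) (S : Finset V) (t : Fin 3 → V) (ht : Function.Injective t)
    (hS : tS t ⊆ S) : bc G S t 1 =
    bet (con (tri G (t 0) (t 1) (t 2)) (t 0) (t 2)) (S.erase (t 0)) := by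
  have h0 : t 0 ∈ S := hS (mem_tS.2 (Or.inl rfl))
  have h2 : t 2 ∈ S := hS (mem_tS.2 (Or.inr (Or.inr rfl)))
  have hne : t 0 ≠ t 2 := fun e => by have := ht e; revert this; decide
  rw [bet_con_comm _ S (t 0) (t 2) h0 h2 (by rw [tri_adj]; tauto), tri_eq]
  rfl

theorem ba_eq (G : SimpleGraph V) (S : Finset V) (t : Fin 3 → V) :
    ba G S t = bet (tri G (t 0) (t 1) (t 2)) S := by
  rw [tri_eq]; rfl

/-- the value of `G[S]/T` -/
noncomputable def btau (G : SimpleGraph V) (S : Finset V) (t : Fin 3 → V) : ℤ :=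
  bet (con (con (tri G (t 0) (t 1) (t 2)) (t 0) (t 1)) (t 1) (t 2)) ((S.erase (t 0)).erase (t 1))

open Classical in
theorem sum_mis (G : SimpleGraph V) (t : Fin 3 → V) (f : Fin 3 → ℤ) :
    ∑ i ∈ mis G t, f i = (if G.Adj (t 0) (t 1) then 0 else f 2) +
      (if G.Adj (t 1) (t 2) then 0 else f 0) + (if G.Adj (t 0) (t 2) then 0 else f 1) := by
  classical
  have e : ∑ i ∈ mis G t, f i = ∑ i : Fin 3, if G.Adj (t (i + 1)) (t (i + 2)) then 0 else f i := by
    unfold mis
    rw [sum_filter]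
    apply sum_congr rfl
    intro i _
    by_cases h : G.Adj (t (i + 1)) (t (i + 2))
    · rw [if_neg (not_not.2 h), if_pos h]
    · rw [if_pos h, if_neg h]
  rw [e, Fin.sum_univ_three]
  have e0 : (if G.Adj (t (0 + 1)) (t (0 + 2)) then 0 else f 0) =
      (if G.Adj (t 1) (t 2) then 0 else f 0) := rfl
  have e2 : (if G.Adj (t (2 + 1)) (t (2 + 2)) then 0 else f 2) =
      (if G.Adj (t 0) (t 1) then 0 else f 2) := rfl
  have e1 : (if G.Adj (t (1 + 1)) (t (1 + 2)) then 0 else f 1) =
      (if G.Adj (t 0) (t 2) then 0 else f 1) := by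
    have h : G.Adj (t (1 + 1)) (t (1 + 2)) ↔ G.Adj (t 0) (t 2) := by
      change G.Adj (t 2) (t 0) ↔ G.Adj (t 0) (t 2)
      exact G.adj_comm _ _
    simp only [h]
  rw [e0, e1, e2]
  ring

open Classical in
/-- `bet_tri` in terms of `t` -/
theorem bet_tri' (G : SimpleGraph V) (S : Finset V) (t : Fin 3 → V) (ht : Function.Injective t)
    (hS : tS t ⊆ S) : bet G S = ba G S t - ∑ i ∈ mis G t, bc G S t i +
      (if mis G t = univ then btau G S t else 0) := by
  classical
  have h0 : t 0 ∈ S := hS (mem_tS.2 (Or.inl rfl))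
  have h1 : t 1 ∈ S := hS (mem_tS.2 (Or.inr (Or.inl rfl)))
  have h2 : t 2 ∈ S := hS (mem_tS.2 (Or.inr (Or.inr rfl)))
  have n01 : t 0 ≠ t 1 := fun e => by have := ht e; revert this; decide
  have n12 : t 1 ≠ t 2 := fun e => by have := ht e; revert this; decide
  have n02 : t 0 ≠ t 2 := fun e => by have := ht e; revert this; decide
  rw [bet_tri G S (t 0) (t 1) (t 2) h0 h1 h2 n01 n12 n02, sum_mis, ba_eq, bc_zero, bc_two,
    bc_one G S t ht hS]
  have e : (mis G t = univ) ↔ ¬ (G.Adj (t 0) (t 1) ∨ G.Adj (t 1) (t 2) ∨ G.Adj (t 0) (t 2)) := by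
    constructor
    · intro h
      have k0 : ¬ G.Adj (t 1) (t 2) := mem_mis.1 (by rw [h]; exact mem_univ (0 : Fin 3))
      have k1 : ¬ G.Adj (t 2) (t 0) := mem_mis.1 (by rw [h]; exact mem_univ (1 : Fin 3))
      have k2 : ¬ G.Adj (t 0) (t 1) := mem_mis.1 (by rw [h]; exact mem_univ (2 : Fin 3))
      rintro (h | h | h)
      · exact k2 h
      · exact k0 h
      · exact k1 h.symm
    · intro h
      rw [not_or, not_or] at h
      ext i
      simp only [mem_univ, iff_true]
      rw [mem_mis]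
      fin_cases i
      · exact h.2.1
      · exact fun h' => h.2.2 h'.symm
      · exact h.1
  by_cases hm : mis G t = univ
  · rw [if_pos hm, if_neg (e.1 hm)]
    unfold btau
    ring
  · rw [if_neg hm, if_pos (not_not.1 (fun h => hm (e.2 h)))]
    ring

theorem Cut3.inter {G : SimpleGraph V} {S T P Q : Finset V} (h : Cut3 G S T P Q) :
    (T ∪ P) ∩ (T ∪ Q) = T := by
  ext a
  simp only [mem_inter, mem_union]
  constructor
  · rintro ⟨h1 | h1, h2 | h2⟩
    · exact h1
    · exact h1
    · exact h2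
    · exact absurd h2 (disjoint_left.1 h.pq h1)
  · exact fun h1 => ⟨Or.inl h1, Or.inl h1⟩

theorem Cut3.union {G : SimpleGraph V} {S T P Q : Finset V} (h : Cut3 G S T P Q) :
    (T ∪ P) ∪ (T ∪ Q) = S := by
  rw [← h.un]
  ext a
  simp only [mem_union]
  tauto

theorem Cut3.sep {G : SimpleGraph V} {S T P Q : Finset V} (h : Cut3 G S T P Q) :
    Sep G (T ∪ P) (T ∪ Q) := by
  intro a ha ha' b hb hb' hab
  rw [mem_union] at ha hb
  rw [mem_union, not_or] at ha' hb'
  rcases ha with ha | ha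
  · exact ha'.1 ha
  · rcases hb with hb | hb
    · exact hb'.1 hb
    · exact h.ne a ha b hb hab

theorem Cut3.subT {G : SimpleGraph V} {S T P Q : Finset V} (h : Cut3 G S T P Q) : T ⊆ S := by
  rw [← h.un]; exact (subset_union_left).trans subset_union_left

theorem Cut3.subP {G : SimpleGraph V} {S T P Q : Finset V} (h : Cut3 G S T P Q) : P ⊆ S := by
  rw [← h.un]; exact (subset_union_right).trans subset_union_left

theorem Cut3.subQ {G : SimpleGraph V} {S T P Q : Finset V} (h : Cut3 G S T P Q) : Q ⊆ S := by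
  rw [← h.un]; exact subset_union_right

/-- some edge between `P` and `T` -/
theorem Cut3.edge {G : SimpleGraph V} {S T P Q : Finset V} (h : Cut3 G S T P Q)
    (hc : Conn G S) : ∃ a ∈ P, ∃ b ∈ T, G.Adj a b := by
  obtain ⟨a, ha, b, hb, hbA, hab⟩ := hc.2 P h.subP h.pn (by
    intro e
    obtain ⟨q, hq⟩ := h.qn
    have := h.subQ hq
    rw [← e] at this
    exact disjoint_left.1 h.pq this hq)
  refine ⟨a, ha, b, ?_, hab⟩
  rw [← h.un, mem_union, mem_union] at hb
  rcases hb with (hb | hb) | hb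
  · exact hb
  · exact absurd hb hbA
  · exact absurd hab (h.ne a ha b hb)

theorem t1 : T1S := by
  intro V _ _ G S T P Q t h3 h ht hT
  classical
  have n01 : t 0 ≠ t 1 := fun e => by have := ht e; revert this; decide
  have n12 : t 1 ≠ t 2 := fun e => by have := ht e; revert this; decide
  have n02 : t 0 ≠ t 2 := fun e => by have := ht e; revert this; decide
  have hS1 : tS t ⊆ T ∪ P := by rw [hT]; exact subset_union_left
  have hS2 : tS t ⊆ T ∪ Q := by rw [hT]; exact subset_union_left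
  have e := bet_cut3 G (T ∪ P) (T ∪ Q) (t 0) (t 1) (t 2) n01 n12 n02
    (by rw [h.inter, ← hT, tS_eq]) h.sep (by
      obtain ⟨a, ha, b, hb, hab⟩ := h.edge h3.2.1.2.1
      refine ⟨a, mem_union_right _ ha, ?_, ?_⟩
      · rw [mem_union, not_or]
        exact ⟨fun h1 => disjoint_left.1 h.tp h1 ha, fun h1 => disjoint_left.1 h.pq ha h1⟩
      · rw [← hT, mem_tS] at hb
        rcases hb with rfl | rfl | rfl
        · exact Or.inl hab
        · exact Or.inr (Or.inl hab)
        · exact Or.inr (Or.inr hab)) (by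
      obtain ⟨a, ha, b, hb, hab⟩ := h.symm.edge h3.2.1.2.1
      refine ⟨a, mem_union_right _ ha, ?_, ?_⟩
      · rw [mem_union, not_or]
        exact ⟨fun h1 => disjoint_left.1 h.tq h1 ha, fun h1 => disjoint_left.1 h.pq h1 ha⟩
      · rw [← hT, mem_tS] at hb
        rcases hb with rfl | rfl | rfl
        · exact Or.inl hab
        · exact Or.inr (Or.inl hab)
        · exact Or.inr (Or.inr hab))
  rw [h.union] at e
  rw [e, sum_mis, ba_eq, ba_eq, bc_zero, bc_zero, bc_two, bc_two, bc_one G (T ∪ P) t ht hS1,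
    bc_one G (T ∪ Q) t ht hS2]
  ring

/-! ### AF -/

/-- a side of a 3-cut is connected -/
theorem Cut3.conn {G : SimpleGraph V} {S T P Q : Finset V} (h : Cut3 G S T P Q)
    (h3 : ThreeConn G S) : Conn G (T ∪ P) := by
  obtain ⟨p0, hp0⟩ := h.pn
  refine ⟨⟨p0, mem_union_right _ hp0⟩, fun A hA hAn hAne => ?_⟩
  by_contra hcon
  -- no edge between `A` and the rest `B`
  have hno : ∀ a ∈ A, ∀ b ∈ T ∪ P, b ∉ A → ¬ G.Adj a b := fun a ha b hb hbA hab =>
    hcon ⟨a, ha, b, hb, hbA, hab⟩
  -- the two halves play the same role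
  have main : ∀ A : Finset V, A ⊆ T ∪ P → A.Nonempty →
      (∀ a ∈ A, ∀ b ∈ T ∪ P, b ∉ A → ¬ G.Adj a b) → (T ∩ A).card ≤ 1 → False := by
    intro A hA hAn hno hc
    by_cases hAP : (A \ T).Nonempty
    · -- `A \ T` is cut off by `T ∩ A`
      have h1 := H43.conn3 h3 (T ∩ A) (inter_subset_left.trans h.subT) (by omega)
      obtain ⟨a, ha, b, hb, hbA, hab⟩ := h1.2 (A \ T) (by
          intro x hx
          rw [mem_sdiff] at hx ⊢
          refine ⟨?_, fun h2 => hx.2 (mem_inter.1 h2).1⟩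
          rcases mem_union.1 (hA hx.1) with h4 | h4
          · exact h.subT h4
          · exact h.subP h4) hAP (by
          intro e
          obtain ⟨q, hq⟩ := h.qn
          have h5 : q ∈ S \ (T ∩ A) := mem_sdiff.2 ⟨h.subQ hq, fun h6 =>
            disjoint_left.1 h.tq (mem_inter.1 h6).1 hq⟩
          rw [← e, mem_sdiff] at h5
          rcases mem_union.1 (hA h5.1) with h7 | h7
          · exact h5.2 h7
          · exact disjoint_left.1 h.pq h7 hq)
      rw [mem_sdiff] at ha hb
      have haP : a ∈ P := by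
        rcases mem_union.1 (hA ha.1) with h4 | h4
        · exact absurd h4 ha.2
        · exact h4
      have hbU : b ∈ T ∪ P := by
        have h8 := hb.1
        rw [← h.un, mem_union] at h8
        rcases h8 with h8 | h8
        · exact h8
        · exact absurd hab (h.ne a haP b h8)
      have hbA' : b ∈ A := by
        by_contra h9
        exact hno a ha.1 b hbU h9 hab
      by_cases hbT : b ∈ T
      · exact hb.2 (mem_inter.2 ⟨hbT, hbA'⟩)
      · exact hbA (mem_sdiff.2 ⟨hbA', hbT⟩)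
    · -- `A = {a}` with `a ∈ T`
      rw [not_nonempty_iff_eq_empty, sdiff_eq_empty_iff_subset] at hAP
      have hTA : T ∩ A = A := inter_eq_right.2 hAP
      rw [hTA] at hc
      obtain ⟨a, rfl⟩ : ∃ a, A = {a} := by
        have := card_pos.2 hAn
        exact card_eq_one.1 (by omega)
      have haT : a ∈ T := hAP (mem_singleton_self a)
      have h1 := H43.conn3 h3 (T.erase a) ((erase_subset _ _).trans h.subT) (by
        rw [card_erase_of_mem haT, h.card])
      obtain ⟨u, hu, b, hb, hbA, hab⟩ := h1.2 P (by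
          intro x hx
          rw [mem_sdiff]
          exact ⟨h.subP hx, fun h2 => disjoint_left.1 h.tp (mem_erase.1 h2).2 hx⟩) h.pn (by
          intro e
          obtain ⟨q, hq⟩ := h.qn
          have h5 : q ∈ S \ (T.erase a) := mem_sdiff.2 ⟨h.subQ hq, fun h6 =>
            disjoint_left.1 h.tq (mem_erase.1 h6).2 hq⟩
          rw [← e] at h5
          exact disjoint_left.1 h.pq h5 hq)
      rw [mem_sdiff] at hb
      have h8 := hb.1
      rw [← h.un, mem_union, mem_union] at h8
      rcases h8 with (h8 | h8) | h8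
      · have hba : b = a := by
          by_contra h9
          exact hb.2 (mem_erase.2 ⟨h9, h8⟩)
        subst hba
        refine hno b (mem_singleton_self b) u (mem_union_right _ hu) ?_ hab.symm
        intro h9
        rw [mem_singleton] at h9
        rw [h9] at hu
        exact disjoint_left.1 h.tp haT hu
      · exact hbA h8
      · exact h.ne u hu b h8 hab
  have hcard : (T ∩ A).card + (T \ A).card = 3 := by
    rw [card_inter_add_card_sdiff, h.card]
  rcases Nat.lt_or_ge (T ∩ A).card 2 with h1 | h1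
  · exact main A hA hAn hno (by omega)
  · refine main ((T ∪ P) \ A) sdiff_subset ?_ ?_ ?_
    · by_contra h2
      rw [not_nonempty_iff_eq_empty, sdiff_eq_empty_iff_subset] at h2
      exact hAne (Subset.antisymm hA h2)
    · intro a ha b hb hbA hab
      rw [mem_sdiff] at ha hbA
      have hbA' : b ∈ A := by
        by_contra h4
        exact hbA ⟨hb, h4⟩
      exact hno b hbA' a ha.1 ha.2 hab.symm
    · have e : T ∩ ((T ∪ P) \ A) = T \ A := by
        ext x
        simp only [mem_inter, mem_sdiff, mem_union]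
        tauto
      rw [e]
      omega

/-- contracting the three vertices costs something -/
theorem tau_le (G : SimpleGraph V) (S : Finset V) (x y z : V) (hx : x ∈ S) (hy : y ∈ S)
    (hz : z ∈ S) (hxy : x ≠ y) (hyz : y ≠ z) (hxz : x ≠ z) (hc : Conn G S) (h4 : 3 ≤ S.card)
    (n1 : ¬ G.Adj y z) (n2 : ¬ G.Adj x z) :
    bet (con (con (tri G x y z) x y) y z) ((S.erase x).erase y) ≤
      bet (con (tri G x y z) x y) (S.erase x) := by
  have hyS : y ∈ S.erase x := mem_erase.2 ⟨hxy.symm, hy⟩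
  have hzS : z ∈ S.erase x := mem_erase.2 ⟨hxz.symm, hz⟩
  have e := iBetdc V (con (tri G x y z) x y) (S.erase x) y z hyS hzS (by
    rw [con_adj, tri_adj]; tauto)
  have h1 : Conn (con G x y) (S.erase x) := H34.con_conn hx hy hxy hc
  have h2 : Conn (del (con (tri G x y z) x y) y z) (S.erase x) := by
    refine ⟨h1.1, fun A hA hAn hAS => ?_⟩
    obtain ⟨a, ha, b, hb, hbA, hab⟩ := h1.2 A hA hAn hAS
    refine ⟨a, ha, b, hb, hbA, ?_⟩
    rw [del_adj]
    have hno : ¬ (con G x y).Adj y z := by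
      rw [con_adj]
      rintro ⟨_, h | h | h⟩
      · exact n1 h
      · exact n2 h.2
      · exact hyz h.1.symm
    refine ⟨?_, ?_, ?_⟩
    · obtain ⟨h3, h5⟩ := hab
      refine ⟨h3, ?_⟩
      rw [tri_adj, tri_adj, tri_adj]
      rcases h5 with h5 | h5 | h5
      · exact Or.inl (Or.inl h5)
      · exact Or.inr (Or.inl ⟨h5.1, Or.inl h5.2⟩)
      · exact Or.inr (Or.inr ⟨h5.1, Or.inl h5.2⟩)
    · rintro ⟨rfl, rfl⟩; exact hno hab
    · rintro ⟨rfl, rfl⟩; exact hno hab.symm
  have h3 := bnn V _ _ h2 (by rw [card_erase_of_mem hx]; omega)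
  linarith

theorem tri_rot (G : SimpleGraph V) (x y z : V) : tri G y z x = tri G x y z := by
  ext a b
  rw [tri_adj, tri_adj]
  tauto

theorem tri_swap (G : SimpleGraph V) (x y z : V) : tri G x z y = tri G x y z := by
  ext a b
  rw [tri_adj, tri_adj]
  tauto

theorem erase_erase_comm (S : Finset V) (x y : V) :
    (S.erase x).erase y = (S.erase y).erase x := by
  ext a
  simp only [mem_erase]
  tauto

theorem af : AfS := by
  intro V _ _ G S T P Q t h3 h ht hT
  classical
  have hS : tS t ⊆ T ∪ P := by rw [hT]; exact subset_union_left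
  have hconn : Conn G (T ∪ P) := h.conn h3
  have hcard : 4 ≤ (T ∪ P).card := by
    rw [card_union_of_disjoint h.tp, h.card]
    have := card_pos.2 h.pn
    omega
  have hti : ∀ i, t i ∈ T ∪ P := fun i => hS (mem_image_of_mem t (mem_univ i))
  have hconn' : Conn (G ⊔ cl (tS t)) (T ∪ P) := H34.conn_mono hconn fun a b h => Or.inl h
  have hbc : ∀ i, 0 ≤ bc G (T ∪ P) t i := by
    intro i
    unfold bc
    apply bnn
    · exact H34.con_conn (hti _) (hti _) (fun e => fin_c i (ht e)) hconn'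
    · rw [card_erase_of_mem (hti _)]; omega
  refine ⟨?_, ?_, hbc, ?_⟩
  · intro I hI
    rw [bet_tri' (G ⊔ tE t I) (T ∪ P) t ht hS, mis_sup_tE ht]
    have hne : mis G t \ I ≠ univ := by
      intro e
      rcases hI with hI | hI
      · obtain ⟨i, hi⟩ := nonempty_iff_ne_empty.2 hI
        have : i ∈ mis G t \ I := by rw [e]; exact mem_univ i
        exact (mem_sdiff.1 this).2 hi
      · apply hI
        rw [eq_univ_iff_forall] at e ⊢
        intro i
        exact (mem_sdiff.1 (e i)).1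
    rw [if_neg hne, add_zero]
    have e1 : ba (G ⊔ tE t I) (T ∪ P) t = ba G (T ∪ P) t := by
      unfold ba; rw [tri_sup_tE]
    have e2 : ∀ i, bc (G ⊔ tE t I) (T ∪ P) t i = bc G (T ∪ P) t i := by
      intro i; unfold bc; rw [tri_sup_tE]
    rw [e1]
    simp only [e2]
  · intro hm
    have k0 : ¬ G.Adj (t 1) (t 2) := mem_mis.1 (by rw [hm]; exact mem_univ (0 : Fin 3))
    have k1 : ¬ G.Adj (t 2) (t 0) := mem_mis.1 (by rw [hm]; exact mem_univ (1 : Fin 3))
    have k2 : ¬ G.Adj (t 0) (t 1) := mem_mis.1 (by rw [hm]; exact mem_univ (2 : Fin 3))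
    have n01 : t 0 ≠ t 1 := fun e => by have := ht e; revert this; decide
    have n12 : t 1 ≠ t 2 := fun e => by have := ht e; revert this; decide
    have n02 : t 0 ≠ t 2 := fun e => by have := ht e; revert this; decide
    refine ⟨btau G (T ∪ P) t, ?_, ?_, ?_⟩
    · unfold btau
      have hTr : Conn (tri G (t 0) (t 1) (t 2)) (T ∪ P) := by
        rw [tri_eq]; exact hconn'
      apply bnn
      · exact H34.con_conn (mem_erase.2 ⟨n01.symm, hti 1⟩) (mem_erase.2 ⟨n02.symm, hti 2⟩) n12
          (H34.con_conn (hti 0) (hti 1) n01 hTr)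
      · rw [card_erase_of_mem (mem_erase.2 ⟨n01.symm, hti 1⟩), card_erase_of_mem (hti 0)]
        omega
    · intro i
      have c2 : btau G (T ∪ P) t ≤ bc G (T ∪ P) t 2 := by
        rw [bc_two]
        exact tau_le G _ _ _ _ (hti 0) (hti 1) (hti 2) n01 n12 n02 hconn (by omega) k0
          (fun h => k1 h.symm)
      have c0 : btau G (T ∪ P) t ≤ bc G (T ∪ P) t 0 := by
        rw [bc_zero]
        have h5 := tau_le G (T ∪ P) (t 1) (t 2) (t 0) (hti 1) (hti 2) (hti 0) n12 n02.symm
          n01.symm hconn (by omega) k1 (fun h => k2 h.symm)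
        rw [tri_rot] at h5
        refine le_trans (le_of_eq ?_) h5
        have e1 := bet_con_comm (con (tri G (t 0) (t 1) (t 2)) (t 1) (t 2))
          ((T ∪ P).erase (t 1)) (t 2) (t 0) (mem_erase.2 ⟨n12.symm, hti 2⟩)
          (mem_erase.2 ⟨n01, hti 0⟩) (by rw [con_adj, tri_adj]; tauto)
        rw [e1]
        unfold btau
        rw [erase_erase_comm]
        apply bet_congr
        intro a ha b hb
        rw [mem_erase, mem_erase] at ha hb
        simp only [con_adj]
        have ha0 := ha.1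
        have ha1 := ha.2.1
        have hb0 := hb.1
        have hb1 := hb.2.1
        constructor
        · rintro ⟨hab, h6⟩
          refine ⟨hab, ?_⟩
          rcases h6 with ⟨_, h6 | h6 | h6⟩ | ⟨h7, _, h6 | h6 | h6⟩ | ⟨h7, _, h6 | h6 | h6⟩
          · exact Or.inl ⟨hab, Or.inl h6⟩
          · exact absurd h6.1 ha1
          · exact absurd h6.1 hb1
          · exact Or.inl ⟨hab, Or.inr (Or.inl ⟨h7, h6⟩)⟩
          · exact Or.inr (Or.inl ⟨h7, hb0.symm, Or.inl h6.2⟩)
          · exact absurd h6.1 hb1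
          · exact Or.inl ⟨hab, Or.inr (Or.inr ⟨h7, h6⟩)⟩
          · exact Or.inr (Or.inr ⟨h7, ha0.symm, Or.inl h6.2⟩)
          · exact absurd h6.1 ha1
        · rintro ⟨hab, h6⟩
          refine ⟨hab, ?_⟩
          rcases h6 with ⟨_, h6 | h6 | h6⟩ | ⟨h7, _, h6 | h6 | h6⟩ | ⟨h7, _, h6 | h6 | h6⟩
          · exact Or.inl ⟨hab, Or.inl h6⟩
          · exact Or.inr (Or.inl ⟨h6.1, hb1.symm, Or.inl h6.2⟩)
          · exact Or.inr (Or.inr ⟨h6.1, ha1.symm, Or.inl h6.2⟩)
          · exact Or.inr (Or.inl ⟨h7, hb1.symm, Or.inr (Or.inl ⟨trivial, h6⟩)⟩)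
          · exact absurd h6.1 n02
          · exact absurd (h7.trans h6.1.symm) hab
          · exact Or.inr (Or.inr ⟨h7, ha1.symm, Or.inr (Or.inl ⟨trivial, h6⟩)⟩)
          · exact absurd h6.1 n02
          · exact absurd (h7.trans h6.1.symm) hab.symm
      have c1 : btau G (T ∪ P) t ≤ bc G (T ∪ P) t 1 := by
        rw [bc_one G (T ∪ P) t ht hS]
        have h5 := tau_le G (T ∪ P) (t 0) (t 2) (t 1) (hti 0) (hti 2) (hti 1) n02 n12.symm
          n01 hconn (by omega) (fun h => k0 h.symm) k2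
        rw [tri_swap] at h5
        refine le_trans (le_of_eq ?_) h5
        have e1 := bet_con_comm (con (tri G (t 0) (t 1) (t 2)) (t 0) (t 2))
          ((T ∪ P).erase (t 0)) (t 2) (t 1) (mem_erase.2 ⟨n02.symm, hti 2⟩)
          (mem_erase.2 ⟨n01.symm, hti 1⟩) (by rw [con_adj, tri_adj]; tauto)
        rw [e1]
        unfold btau
        apply bet_congr
        intro a ha b hb
        rw [mem_erase, mem_erase] at ha hb
        simp only [con_adj]
        have ha0 := ha.2.1
        have ha1 := ha.1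
        have hb0 := hb.2.1
        have hb1 := hb.1
        constructor
        · rintro ⟨hab, h6⟩
          refine ⟨hab, ?_⟩
          rcases h6 with ⟨_, h6 | h6 | h6⟩ | ⟨h7, _, h6 | h6 | h6⟩ | ⟨h7, _, h6 | h6 | h6⟩
          · exact Or.inl ⟨hab, Or.inl h6⟩
          · exact absurd h6.1 ha1
          · exact absurd h6.1 hb1
          · exact Or.inr (Or.inl ⟨h7, hb1.symm, Or.inl h6⟩)
          · exact Or.inl ⟨hab, Or.inr (Or.inl ⟨h7, h6.2⟩)⟩
          · exact absurd h6.1 hb1
          · exact Or.inr (Or.inr ⟨h7, ha1.symm, Or.inl h6⟩)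
          · exact Or.inl ⟨hab, Or.inr (Or.inr ⟨h7, h6.2⟩)⟩
          · exact absurd h6.1 ha1
        · rintro ⟨hab, h6⟩
          refine ⟨hab, ?_⟩
          rcases h6 with ⟨_, h6 | h6 | h6⟩ | ⟨h7, _, h6 | h6 | h6⟩ | ⟨h7, _, h6 | h6 | h6⟩
          · exact Or.inl ⟨hab, Or.inl h6⟩
          · exact Or.inr (Or.inl ⟨h6.1, hb1.symm, Or.inr (Or.inl ⟨trivial, h6.2⟩)⟩)
          · exact Or.inr (Or.inr ⟨h6.1, ha1.symm, Or.inr (Or.inl ⟨trivial, h6.2⟩)⟩)
          · exact Or.inr (Or.inl ⟨h7, hb1.symm, Or.inl h6⟩)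
          · exact absurd h6.1 n12
          · exact absurd (h7.trans h6.1.symm) hab
          · exact Or.inr (Or.inr ⟨h7, ha1.symm, Or.inl h6⟩)
          · exact absurd h6.1 n12
          · exact absurd (h7.trans h6.1.symm) hab.symm
      fin_cases i
      · exact c0
      · exact c1
      · exact c2
    · rw [bet_tri' G (T ∪ P) t ht hS, if_pos hm, hm]
  · intro I
    apply bnn
    · exact H34.conn_mono hconn fun a b h => Or.inl h
    · omega

end Pool.Agent.Xu.X2
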